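import Mathlib
import Pool.Agent.Helper30.TP.Jac
import Pool.Agent.Helper30.TP.LFin

/-!
# Post-critically finite endomorphisms of the projective plane: definitions

Project PC. Real absolute values, the sum over all places of a field with a product formula,
contacts of points, the algebraic data of a post-critically finite map.
-/

set_option autoImplicit false

namespace Pool.Agent.Helper72.PC

open MvPolynomial Height Height.AdmissibleAbsValues
open Pool.Agent.Helper36 (step iter)
open Pool.Agent.Helper30.TP

/-- Algebraic data of a post-critically finite map: the form `g` (the equation of the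
post-critical curve) divides `g ∘ F`, and the Jacobian determinant divides a power of the
quotient `q`. -/
structure PCFdata {K : Type} [Field K] (F : Fin 3 → MvPolynomial (Fin 3) K)
    (g q c : MvPolynomial (Fin 3) K) (D e t E : ℕ) : Prop where
  g_ne : g ≠ 0
  g_hom : g.IsHomogeneous D
  q_hom : q.IsHomogeneous e
  c_hom : c.IsHomogeneous t
  comp : aeval F g = g * q
  crit : q ^ E = jf F * c

section abs

variable {K : Type} [Field K]

/-- The maximum norm of a vector for an absolute value. -/
noncomputable def nrm (v : AbsoluteValue K ℝ) (x : Fin 3 → K) : ℝ := ⨆ i, v (x i)

/-- The contact of two points for an absolute value. -/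
noncomputable def ct (v : AbsoluteValue K ℝ) (x y : Fin 3 → K) : ℝ :=
  Real.log (nrm v x) + Real.log (nrm v y) - Real.log (nrm v (crossProduct x y))

variable [AdmissibleAbsValues K]

/-- The sum over all places (the archimedean places with their multiplicities). -/
noncomputable def psum (φ : AbsoluteValue K ℝ → ℝ) : ℝ :=
  (archAbsVal.map φ).sum + ∑ᶠ v : nonarchAbsVal (K := K), φ v.val

/-- Finite support at the nonarchimedean places. -/
def FS (φ : AbsoluteValue K ℝ → ℝ) : Prop :=
  (Function.support fun v : nonarchAbsVal (K := K) => φ v.val).Finite

end abs

end Pool.Agent.Helper72.PC
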