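import Pool.Agent.Helper72.PC.Main

/-!
# Algebraic points
-/

set_option autoImplicit false

namespace Pool.Agent.Helper72.PC

open MvPolynomial
open Pool.Agent.Helper36 (step iter)
open Pool.Agent.Helper30.TP

theorem base_map_jf {K k : Type} [Field K] [Field k] (φ : K →+* k)
    (F : Fin 3 → MvPolynomial (Fin 3) K) :
    map φ (jf F) = jf fun i => map φ (F i) := by
  unfold jf
  rw [RingHom.map_det]
  congr 1
  ext i j
  simp [Matrix.of_apply, pderiv_map]

theorem base_map_comp {K k : Type} [Field K] [Field k] (φ : K →+* k)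
    (F : Fin 3 → MvPolynomial (Fin 3) K) (g : MvPolynomial (Fin 3) K) :
    map φ (aeval F g) = aeval (fun i => map φ (F i)) (map φ g) := by
  induction g using MvPolynomial.induction_on with
  | C a => simp
  | add p q hp hq => simp only [map_add, hp, hq]
  | mul_X p i hp => simp only [map_mul, hp, aeval_X, map_X]

theorem base_exists {K k : Type} [Field K] [Field k] (φ : K →+* k) (P : MvPolynomial (Fin 3) k)
    (h : ∀ m, ∃ c : K, φ c = P.coeff m) : ∃ P' : MvPolynomial (Fin 3) K, map φ P' = P := by
  choose c hc using h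
  refine ⟨∑ m ∈ P.support, monomial m (c m), ?_⟩
  rw [map_sum]
  simp only [map_monomial, hc]
  exact P.support_sum_monomial_coeff

theorem base_hom {K k : Type} [Field K] [Field k] (φ : K →+* k) {P : MvPolynomial (Fin 3) K}
    {n : ℕ} (h : (map φ P).IsHomogeneous n) : P.IsHomogeneous n := by
  intro m hm
  apply h
  rw [coeff_map]
  exact (map_ne_zero φ).2 hm

/-- Descent to a smaller field. -/
theorem base_descend {K k : Type} [Field K] [Field k] (φ : K →+* k) {d : ℕ}
    {F : Fin 3 → MvPolynomial (Fin 3) k}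
    {g q c : MvPolynomial (Fin 3) k} {D e t E : ℕ} (hP : PCFdata F g q c D e t E)
    (hF : ∀ i m, ∃ r : K, φ r = (F i).coeff m) (hg : ∀ m, ∃ r : K, φ r = g.coeff m)
    (hq : ∀ m, ∃ r : K, φ r = q.coeff m) (hc : ∀ m, ∃ r : K, φ r = c.coeff m) :
    ∃ (F' : Fin 3 → MvPolynomial (Fin 3) K) (g' q' c' : MvPolynomial (Fin 3) K),
      (∀ i, map φ (F' i) = F i) ∧ PCFdata F' g' q' c' D e t E := by
  have hinj : Function.Injective (map φ : MvPolynomial (Fin 3) K → MvPolynomial (Fin 3) k) :=
    map_injective φ φ.injective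
  choose F' hF' using fun i => base_exists φ (F i) (hF i)
  obtain ⟨g', hg'⟩ := base_exists φ g hg
  obtain ⟨q', hq'⟩ := base_exists φ q hq
  obtain ⟨c', hc'⟩ := base_exists φ c hc
  have hFF : (fun i => map φ (F' i)) = F := funext hF'
  refine ⟨F', g', q', c', hF', ⟨?_, ?_, ?_, ?_, ?_, ?_⟩⟩
  · rintro rfl
    exact hP.g_ne (by rw [← hg', map_zero])
  · exact base_hom φ (by rw [hg']; exact hP.g_hom)
  · exact base_hom φ (by rw [hq']; exact hP.q_hom)
  · exact base_hom φ (by rw [hc']; exact hP.c_hom)
  · apply hinj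
    rw [base_map_comp, hFF, hg', hP.comp, map_mul, hg', hq']
  · apply hinj
    rw [map_pow, hq', hP.crit, map_mul, hc', base_map_jf, hFF]

/-- The Dynamical Mordell-Lang property for post-critically finite endomorphisms of the plane
over a field algebraic over the rational numbers. -/
theorem base {k : Type} [Field k] [Algebra ℚ k] [Algebra.IsAlgebraic ℚ k] [Algebra k ℂ] {d : ℕ}
    {F : Fin 3 → MvPolynomial (Fin 3) k} (hF : IsEndo d fun i => map (algebraMap k ℂ) (F i))
    {g q c : MvPolynomial (Fin 3) k} {D e t E : ℕ} (hP : PCFdata F g q c D e t E)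
    {a : Fin 3 → k} (ha : a ≠ 0) (s : ℂ) (hs : s ≠ 0) :
    Pool.Agent.Helper38.Sym.DMLgen (fun i => map (algebraMap k ℂ) (F i))
      (fun i => s * algebraMap k ℂ (a i)) := by
  classical
  let S : Finset k := (Finset.univ.biUnion fun i => (F i).coeffs) ∪ g.coeffs ∪ q.coeffs ∪
    c.coeffs ∪ Finset.univ.image a
  let K : IntermediateField ℚ k := IntermediateField.adjoin ℚ (S : Set k)
  have hfin : FiniteDimensional ℚ K :=
    IntermediateField.finiteDimensional_adjoin fun x _ =>
      (Algebra.IsAlgebraic.isAlgebraic x).isIntegral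
  have hnum : NumberField K :=
    { to_charZero := inferInstance
      to_finiteDimensional := by
        have e : (DivisionRing.toRatAlgebra.toModule : Module ℚ K) = K.module' :=
          Subsingleton.elim _ _
        rw [e]
        exact hfin }
  have hSK : ∀ x ∈ S, ∃ r : K, algebraMap K k r = x := fun x hx =>
    ⟨⟨x, IntermediateField.subset_adjoin ℚ _ hx⟩, rfl⟩
  have hcoef : ∀ P : MvPolynomial (Fin 3) k, (∀ x ∈ P.coeffs, x ∈ S) → ∀ m, ∃ r : K,
      algebraMap K k r = P.coeff m := by
    intro P hPS m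
    by_cases h : P.coeff m = 0
    · exact ⟨0, by rw [map_zero, h]⟩
    · exact hSK _ (hPS _ (coeff_mem_coeffs m h))
  obtain ⟨F', g', q', c', hF', hP'⟩ := base_descend (algebraMap K k) (d := d) hP
    (fun i => hcoef (F i) fun x hx => by
      simp only [S, Finset.mem_union, Finset.mem_biUnion]
      exact Or.inl (Or.inl (Or.inl (Or.inl ⟨i, Finset.mem_univ _, hx⟩))))
    (hcoef g fun x hx => by
      simp only [S, Finset.mem_union]
      exact Or.inl (Or.inl (Or.inl (Or.inr hx))))
    (hcoef q fun x hx => by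
      simp only [S, Finset.mem_union]
      exact Or.inl (Or.inl (Or.inr hx)))
    (hcoef c fun x hx => by
      simp only [S, Finset.mem_union]
      exact Or.inl (Or.inr hx))
  have haK : ∀ i, ∃ r : K, algebraMap K k r = a i := fun i => hSK _ (by
    simp only [S, Finset.mem_union]
    exact Or.inr (Finset.mem_image_of_mem _ (Finset.mem_univ i)))
  choose a' ha' using haK
  have ha'0 : a' ≠ 0 := by
    rintro rfl
    apply ha
    funext i
    rw [← ha' i, Pi.zero_apply, map_zero, Pi.zero_apply]
  have htow : ∀ x : K, algebraMap K ℂ x = algebraMap k ℂ (algebraMap K k x) := fun x =>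
    IsScalarTower.algebraMap_apply K k ℂ x
  have htow' : (algebraMap K ℂ) = (algebraMap k ℂ).comp (algebraMap K k) :=
    RingHom.ext htow
  have hmap : (fun i => map (algebraMap K ℂ) (F' i)) = fun i => map (algebraMap k ℂ) (F i) := by
    funext i
    rw [← hF' i, map_map, htow']
  have hmain := main (K := K) (F := F') (a := a') (by rw [hmap]; exact hF) hP' ha'0 s hs
  have hpt : (fun i => s * algebraMap K ℂ (a' i)) = fun i => s * algebraMap k ℂ (a i) := by
    funext i
    rw [← ha' i, htow]
  rw [hmap, hpt] at hmain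
  exact hmain

end Pool.Agent.Helper72.PC
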