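import Pool.Agent.Helper72.PC.Defs
import Pool.Agent.Helper65.PC.Alg
import Pool.Agent.Helper30.TP.Form

/-!
# Ramification along the critical curve
-/

set_option autoImplicit false

namespace Pool.Agent.Helper72.PC

open MvPolynomial
open Pool.Agent.Helper36 (step iter)
open Pool.Agent.Helper30.TP

/-- The Jacobian determinant of a finite map is not zero. -/
theorem jf_ne_zero_of_integral {K : Type} [Field K] [CharZero K]
    {F : Fin 3 → MvPolynomial (Fin 3) K}
    (hint : ∀ x : MvPolynomial (Fin 3) K, IsIntegral (Algebra.adjoin K (Set.range F)) x) :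
    jf F ≠ 0 := by
  classical
  intro h
  unfold jf at h
  obtain ⟨v, hv, hMv⟩ := Matrix.exists_mulVec_eq_zero_iff.2 h
  let D : Derivation K (MvPolynomial (Fin 3) K) (MvPolynomial (Fin 3) K) :=
    v 0 • pderiv 0 + v 1 • pderiv 1 + v 2 • pderiv 2
  have hDap : ∀ a, D a = ∑ j, v j * pderiv j a := by
    intro a
    rw [Fin.sum_univ_three]
    rfl
  have hDF : ∀ i, D (F i) = 0 := by
    intro i
    rw [hDap]
    have := congrFun hMv i
    simp only [Matrix.mulVec, dotProduct, Matrix.of_apply, Pi.zero_apply] at this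
    rw [← this]
    exact Finset.sum_congr rfl fun j _ => mul_comm _ _
  have hDR : ∀ a ∈ Algebra.adjoin K (Set.range F), D a = 0 := by
    intro a ha
    induction ha using Algebra.adjoin_induction with
    | mem x hx =>
      obtain ⟨i, rfl⟩ := hx
      exact hDF i
    | algebraMap r => exact D.map_algebraMap r
    | add x y _ _ hx hy => rw [map_add, hx, hy, add_zero]
    | mul x y _ _ hx hy => rw [Derivation.leibniz, hx, hy, smul_zero, smul_zero, add_zero]
  apply hv
  funext j
  obtain ⟨P, hP, h0⟩ := hint (X j)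
  have h1 := derivation_algebraic (Algebra.adjoin K (Set.range F)) D hDR (X j) P.natDegree P
    hP.ne_zero le_rfl h0
  rw [hDap] at h1
  simpa [pderiv_X, Pi.single_apply] using h1

/-- Not every irreducible polynomial divides a given nonzero polynomial. -/
theorem exists_irreducible_not_dvd {K : Type} [Field K] {g : MvPolynomial (Fin 3) K}
    (hg : g ≠ 0) : ∃ P, Irreducible P ∧ ¬ P ∣ g := by
  have h0 : ¬ IsUnit (g * X 0 + 1) := by
    intro h
    rw [MvPolynomial.isUnit_iff_eq_C_of_isReduced] at h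
    obtain ⟨r, -, hr⟩ := h
    have h1 := congrArg (aeval (fun i => if i = 0 then (0 : MvPolynomial (Fin 3) K) else X i)) hr
    rw [map_add, map_mul, aeval_X, if_pos rfl, mul_zero, zero_add, map_one, aeval_C] at h1
    have h2 : g * X 0 = 0 := by
      have h3 : (C r : MvPolynomial (Fin 3) K) = 1 := h1.symm
      rw [h3] at hr
      exact add_eq_right.1 hr
    exact hg ((mul_eq_zero.1 h2).resolve_right (X_ne_zero 0))
  have h1 : g * X 0 + 1 ≠ 0 := by
    intro h
    have h1 := congrArg (aeval (fun i => if i = 0 then (0 : MvPolynomial (Fin 3) K) else X i)) h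
    rw [map_add, map_mul, aeval_X, if_pos rfl, mul_zero, zero_add, map_one, map_zero] at h1
    exact one_ne_zero h1
  obtain ⟨P, hP, hPd⟩ := WfDvdMonoid.exists_irreducible_factor h0 h1
  refine ⟨P, hP, fun h => hP.not_isUnit ?_⟩
  exact isUnit_of_dvd_one ((dvd_add_right (h.mul_right _)).1 hPd)

/-- The algebraic data from a squarefree form `g` which contains the critical curve. -/
theorem exists_data {K : Type} [Field K] [CharZero K] {L : Type} [Field L] [IsAlgClosed L]
    [Algebra K L] {F : Fin 3 → MvPolynomial (Fin 3) K} {d : ℕ}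
    (hF : ∀ i, (F i).IsHomogeneous d)
    (hnz : ∀ x : Fin 3 → L, (∀ i, aeval x (F i) = 0) → x = 0)
    {g : MvPolynomial (Fin 3) K} {D : ℕ} (hg : g.IsHomogeneous D) (hgs : Squarefree g)
    (hgF : g ∣ aeval F g) (hgJ : ∀ P, Irreducible P → P ∣ jf F → P ∣ g) :
    ∃ (q c : MvPolynomial (Fin 3) K) (e t E : ℕ), PCFdata F g q c D e t E := by
  have hg0 : g ≠ 0 := hgs.ne_zero
  rcases Nat.eq_zero_or_pos d with hd | hd
  · exfalso
    subst hd
    have hJ : jf F = 0 := by
      have h1 : ∀ i j, pderiv j (F i) = 0 := by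
        intro i j
        have h2 := totalDegree_eq_zero_iff_eq_C.1 (Nat.le_zero.1 (hF i).totalDegree_le)
        rw [h2, pderiv_C]
      unfold jf
      have h3 : (Matrix.of fun i j => pderiv j (F i)) = 0 := by
        ext i j
        rw [Matrix.of_apply, h1]
        rfl
      rw [h3]
      exact Matrix.det_zero
    obtain ⟨P, hP, hPg⟩ := exists_irreducible_not_dvd hg0
    exact hPg (hgJ P hP (by rw [hJ]; exact dvd_zero _))
  have hint := Pool.Agent.Helper65.PC.isIntegral_adjoin (L := L) hd hF hnz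
  obtain ⟨q, hq⟩ := hgF
  obtain ⟨E, c, hc⟩ := Pool.Agent.Helper65.PC.jac_dvd_pow (L := L) hd hF hnz
    (jf_ne_zero_of_integral hint) hgs hgJ hq
  have hcomp : (aeval F g).IsHomogeneous (d * D) := hg.aeval F hF
  obtain ⟨e, he⟩ : ∃ e, q.IsHomogeneous e := by
    by_cases h0 : aeval F g = 0
    · rw [h0] at hq
      have h1 : q = 0 := (mul_eq_zero.1 hq.symm).resolve_left hg0
      exact ⟨0, by rw [h1]; exact isHomogeneous_zero _ _ _⟩
    · obtain ⟨i, j, -, hj, -⟩ := form_of_mul hcomp h0 hq
      exact ⟨j, hj⟩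
  obtain ⟨t, ht⟩ : ∃ t, c.IsHomogeneous t := by
    by_cases h0 : q ^ E = 0
    · rw [h0] at hc
      have h1 : c = 0 := (mul_eq_zero.1 hc.symm).resolve_left (jf_ne_zero_of_integral hint)
      exact ⟨0, by rw [h1]; exact isHomogeneous_zero _ _ _⟩
    · obtain ⟨i, j, -, hj, -⟩ := form_of_mul (he.pow E) h0 hc
      exact ⟨j, hj⟩
  exact ⟨q, c, e, t, E, ⟨hg0, hg, he, ht, hq, hc⟩⟩

end Pool.Agent.Helper72.PC
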