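import Pool.Agent.Helper72.PC.Low

/-!
# Existence of a good place with a large contact
-/

set_option autoImplicit false

namespace Pool.Agent.Helper72.PC

open MvPolynomial Height Height.AdmissibleAbsValues
open Pool.Agent.Helper30.TP

section loc

variable {K : Type} [Field K]

theorem ct_ge (v : AbsoluteValue K ℝ) {x y : Fin 3 → K} (hx : x ≠ 0) (hy : y ≠ 0)
    (hxy : crossProduct x y ≠ 0) : - Real.log 2 ≤ ct v x y := by
  unfold ct
  have h1 := nrm_cross_le v x y
  have hx' := nrm_pos v hx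
  have hy' := nrm_pos v hy
  have h2 := Real.log_le_log (nrm_pos v hxy) h1
  rw [Real.log_mul two_ne_zero (mul_pos hx' hy').ne', Real.log_mul hx'.ne' hy'.ne'] at h2
  linarith

theorem ct_nonneg {v : AbsoluteValue K ℝ} (hv : IsNonarchimedean v) {x y : Fin 3 → K}
    (hx : x ≠ 0) (hy : y ≠ 0) (hxy : crossProduct x y ≠ 0) : 0 ≤ ct v x y := by
  unfold ct
  have h1 := nrm_cross_le_na hv x y
  have hx' := nrm_pos v hx
  have hy' := nrm_pos v hy
  have h2 := Real.log_le_log (nrm_pos v hxy) h1
  rw [Real.log_mul hx'.ne' hy'.ne'] at h2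
  linarith

theorem ct_min (v : AbsoluteValue K ℝ) {x y z : Fin 3 → K} (hx : x ≠ 0) (hy : y ≠ 0)
    (hz : z ≠ 0) (hxy : crossProduct x y ≠ 0) (hxz : crossProduct x z ≠ 0)
    (hyz : crossProduct y z ≠ 0) :
    min (ct v x z) (ct v y z) ≤ ct v x y + Real.log 18 := by
  have h := cross_ultra v x y z
  have hx' := nrm_pos v hx
  have hy' := nrm_pos v hy
  have hz' := nrm_pos v hz
  have hxy' := nrm_pos v hxy
  have hxz' := nrm_pos v hxz
  have hyz' := nrm_pos v hyz
  have key : nrm v (crossProduct x y) * nrm v z ≤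
      18 * max (nrm v x * nrm v (crossProduct y z)) (nrm v y * nrm v (crossProduct x z)) := by
    have h1 := le_max_left (nrm v x * nrm v (crossProduct y z))
      (nrm v y * nrm v (crossProduct x z))
    have h2 := le_max_right (nrm v x * nrm v (crossProduct y z))
      (nrm v y * nrm v (crossProduct x z))
    linarith
  unfold ct
  rcases max_cases (nrm v x * nrm v (crossProduct y z)) (nrm v y * nrm v (crossProduct x z)) with
    ⟨hm, -⟩ | ⟨hm, -⟩
  · rw [hm] at key
    have h2 := Real.log_le_log (mul_pos hxy' hz') key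
    rw [Real.log_mul hxy'.ne' hz'.ne', Real.log_mul (by norm_num) (mul_pos hx' hyz').ne',
      Real.log_mul hx'.ne' hyz'.ne'] at h2
    refine (min_le_right _ _).trans ?_
    linarith
  · rw [hm] at key
    have h2 := Real.log_le_log (mul_pos hxy' hz') key
    rw [Real.log_mul hxy'.ne' hz'.ne', Real.log_mul (by norm_num) (mul_pos hy' hxz').ne',
      Real.log_mul hy'.ne' hxz'.ne'] at h2
    refine (min_le_left _ _).trans ?_
    linarith

/-- Only one of the given points can be close to the point `z`. -/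
theorem sum_ct_le (v : AbsoluteValue K ℝ) (Γ : Finset ℕ) (x : ℕ → Fin 3 → K) (z : Fin 3 → K)
    (hx : ∀ i ∈ Γ, x i ≠ 0) (hz : z ≠ 0)
    (hxx : ∀ i ∈ Γ, ∀ j ∈ Γ, i ≠ j → crossProduct (x i) (x j) ≠ 0)
    (hxz : ∀ i ∈ Γ, crossProduct (x i) z ≠ 0) {H : ℝ} (hH0 : 0 ≤ H)
    (hH : ∀ i ∈ Γ, ct v (x i) z ≤ H) :
    ∑ i ∈ Γ, ct v (x i) z ≤
      H + Γ.card * (∑ i ∈ Γ, ∑ j ∈ Γ, |ct v (x i) (x j)| + Real.log 18) := by
  classical
  have h18 : 0 ≤ Real.log 18 := Real.log_nonneg (by norm_num)
  set κ : ℝ := ∑ i ∈ Γ, ∑ j ∈ Γ, |ct v (x i) (x j)| + Real.log 18 with hκ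
  have hκ0 : 0 ≤ κ := add_nonneg (Finset.sum_nonneg fun i _ => Finset.sum_nonneg fun j _ =>
    abs_nonneg _) h18
  rcases Γ.eq_empty_or_nonempty with h0 | hne
  · rw [h0]
    simpa using hH0
  obtain ⟨i₀, hi₀, hmax⟩ := Finset.exists_max_image Γ (fun i => ct v (x i) z) hne
  rw [← Finset.add_sum_erase _ _ hi₀]
  have h1 : ∑ i ∈ Γ.erase i₀, ct v (x i) z ≤ ∑ i ∈ Γ.erase i₀, κ := by
    refine Finset.sum_le_sum fun i hi => ?_
    have hi' := Finset.mem_of_mem_erase hi
    have hne' := Finset.ne_of_mem_erase hi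
    have h2 := ct_min v (hx i hi') (hx i₀ hi₀) hz (hxx i hi' i₀ hi₀ hne') (hxz i hi')
      (hxz i₀ hi₀)
    rw [min_eq_left (hmax i hi')] at h2
    refine h2.trans ?_
    rw [hκ]
    have h3 : ct v (x i) (x i₀) ≤ ∑ i ∈ Γ, ∑ j ∈ Γ, |ct v (x i) (x j)| := by
      refine (le_abs_self _).trans ?_
      refine (Finset.single_le_sum (f := fun j => |ct v (x i) (x j)|)
        (fun j _ => abs_nonneg _) hi₀).trans ?_
      exact Finset.single_le_sum (f := fun i => ∑ j ∈ Γ, |ct v (x i) (x j)|)
        (fun i _ => Finset.sum_nonneg fun j _ => abs_nonneg _) hi'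
    linarith
  rw [Finset.sum_const, nsmul_eq_mul] at h1
  have h4 : ((Γ.erase i₀).card : ℝ) * κ ≤ Γ.card * κ := by
    refine mul_le_mul_of_nonneg_right ?_ hκ0
    exact_mod_cast Finset.card_le_card (Finset.erase_subset _ _)
  linarith [hH i₀ hi₀]

end loc

variable {K : Type} [Field K] [AdmissibleAbsValues K]

theorem ct_FS {x y : Fin 3 → K} (hx : x ≠ 0) (hy : y ≠ 0) (hxy : crossProduct x y ≠ 0) :
    FS (fun v => ct v x y) :=
  ((FS_nrm hx).add (FS_nrm hy)).sub (FS_nrm hxy)

theorem psum_ct {x y : Fin 3 → K} (hx : x ≠ 0) (hy : y ≠ 0) (hxy : crossProduct x y ≠ 0) :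
    psum (fun v => ct v x y) = logHeight x + logHeight y - logHeight (crossProduct x y) := by
  unfold ct
  rw [psum_sub ((FS_nrm hx).add (FS_nrm hy)) (FS_nrm hxy), psum_add (FS_nrm hx) (FS_nrm hy),
    psum_nrm hx, psum_nrm hy, psum_nrm hxy]

/-- One contact is bounded by the heights. -/
theorem ct_le {x y : Fin 3 → K} (hx : x ≠ 0) (hy : y ≠ 0) (hxy : crossProduct x y ≠ 0)
    {v : AbsoluteValue K ℝ} (hv : v ∈ archAbsVal (K := K) ∨ v ∈ nonarchAbsVal (K := K)) :
    ct v x y ≤ logHeight x + logHeight y +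
      Multiset.card (archAbsVal (K := K)) * Real.log 2 := by
  classical
  have h2 : 0 ≤ Real.log 2 := Real.log_nonneg (by norm_num)
  have hsum := psum_ct hx hy hxy
  have hpos : 0 ≤ logHeight (crossProduct x y) := logHeight_nonneg _
  unfold psum at hsum
  have harch : ∀ s : Multiset (AbsoluteValue K ℝ),
      - (Multiset.card s * Real.log 2) ≤ (s.map fun v => ct v x y).sum := by
    intro s
    induction s using Multiset.induction_on with
    | empty => simp
    | cons w s ih =>
      rw [Multiset.map_cons, Multiset.sum_cons, Multiset.card_cons]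
      have := ct_ge w hx hy hxy
      push_cast
      linarith
  have hna : 0 ≤ ∑ᶠ v : nonarchAbsVal (K := K), ct v.val x y :=
    finsum_nonneg fun v => ct_nonneg (isNonarchimedean _ v.2) hx hy hxy
  rcases hv with hv | hv
  · obtain ⟨s, hs⟩ := Multiset.exists_cons_of_mem hv
    have h3 := harch s
    rw [hs, Multiset.map_cons, Multiset.sum_cons] at hsum
    rw [hs, Multiset.card_cons]
    push_cast
    linarith
  · have h3 : ct v x y ≤ ∑ᶠ v : nonarchAbsVal (K := K), ct v.val x y := by
      have := single_le_finsum (f := fun v : nonarchAbsVal (K := K) => ct v.val x y) ⟨v, hv⟩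
        (ct_FS hx hy hxy) (fun v => ct_nonneg (isNonarchimedean _ v.2) hx hy hxy)
      exact this
    have h4 := harch (archAbsVal (K := K))
    linarith

theorem exists_contact [Infinite K] {x : ℕ → Fin 3 → K} {S : Set ℕ} (hS : S.Infinite)
    (hx : ∀ n ∈ S, x n ≠ 0) (hnp : ∀ n ∈ S, ∀ n' ∈ S, n ≠ n' → ¬ PEq (x n) (x n'))
    {g : MvPolynomial (Fin 3) K} {D : ℕ} (hg : g.IsHomogeneous D) (hirr : Irreducible g)
    (hgx : ∀ n ∈ S, eval (x n) g = 0)
    (hht : ∀ C : ℝ, {n | n ∈ S ∧ logHeight (x n) ≤ C}.Finite)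
    (B : Finset (nonarchAbsVal (K := K))) (c : ℕ → AbsoluteValue K ℝ → ℝ)
    (hc : ∀ i ∈ S, FS (c i)) :
    ∃ i ∈ S, ∃ n ∈ S, i < n ∧ ∃ v : nonarchAbsVal (K := K), v ∉ B ∧
      c i v.val < ct v.val (x i) (x n) := by
  classical
  by_contra hcon
  push Not at hcon
  set A := Multiset.card (archAbsVal (K := K)) with hA
  obtain ⟨Γ, C, X, hΓS, hX, hlow⟩ := sum_ht_cross_le hS hx hnp hg hirr hgx (A + B.card + 1)
  have hcr : ∀ n ∈ S, ∀ n' ∈ S, n ≠ n' → crossProduct (x n) (x n') ≠ 0 := fun n hn n' hn' h =>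
    cross_ne_zero (hx n hn) (hx n' hn') (hnp n hn n' hn' h)
  -- the constants
  set κ : AbsoluteValue K ℝ → ℝ := fun v => ∑ i ∈ Γ, logHeight (x i) + A * Real.log 2 +
    Γ.card * (∑ i ∈ Γ, ∑ j ∈ Γ, |ct v (x i) (x j)| + Real.log 18) with hκ
  set C₂ : ℝ := ((archAbsVal (K := K)).map κ).sum + ∑ v ∈ B, κ v.val +
    ∑ᶠ v : nonarchAbsVal (K := K), ∑ i ∈ Γ, |c i v.val| with hC₂
  have hloc : ∀ n ∈ S, n ∉ Γ → ∀ v : AbsoluteValue K ℝ,
      (v ∈ archAbsVal (K := K) ∨ v ∈ nonarchAbsVal (K := K)) →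
      ∑ i ∈ Γ, ct v (x i) (x n) ≤ logHeight (x n) + κ v := by
    intro n hn hnΓ v hv
    have hni : ∀ i ∈ Γ, i ≠ n := fun i hi h => hnΓ (h ▸ hi)
    have hHi : 0 ≤ ∑ i ∈ Γ, logHeight (x i) := Finset.sum_nonneg fun i _ => logHeight_nonneg _
    have h2 : 0 ≤ Real.log 2 := Real.log_nonneg (by norm_num)
    have h1 := sum_ct_le v Γ x (x n) (fun i hi => hx i (hΓS hi)) (hx n hn)
      (fun i hi j hj hij => hcr i (hΓS hi) j (hΓS hj) hij)
      (fun i hi => hcr i (hΓS hi) n hn (hni i hi))
      (H := logHeight (x n) + (∑ i ∈ Γ, logHeight (x i) + A * Real.log 2))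
      (by
        have := logHeight_nonneg (x n)
        positivity)
      (fun i hi => by
        have h3 := ct_le (hx i (hΓS hi)) (hx n hn) (hcr i (hΓS hi) n hn (hni i hi)) hv
        have h4 := Finset.single_le_sum (f := fun i => logHeight (x i))
          (fun i _ => logHeight_nonneg _) hi
        linarith)
    rw [hκ]
    simp only
    linarith
  -- the bound for the heights
  have hfin : ∀ n ∈ S, n ∉ X → (∀ i ∈ Γ, i < n) → logHeight (x n) ≤ C + C₂ := by
    intro n hn hnX hnΓ
    have hnΓ' : n ∉ Γ := fun h => lt_irrefl n (hnΓ n h)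
    have hni : ∀ i ∈ Γ, i ≠ n := fun i hi h => hnΓ' (h ▸ hi)
    have h1 := hlow n hn hnX
    have hFS : ∀ i ∈ Γ, FS (fun v => ct v (x i) (x n)) := fun i hi =>
      ct_FS (hx i (hΓS hi)) (hx n hn) (hcr i (hΓS hi) n hn (hni i hi))
    have h2 : psum (fun v => ∑ i ∈ Γ, ct v (x i) (x n)) = ∑ i ∈ Γ, (logHeight (x i) +
        logHeight (x n) - logHeight (crossProduct (x i) (x n))) := by
      rw [psum_sum Γ hFS]
      exact Finset.sum_congr rfl fun i hi =>
        psum_ct (hx i (hΓS hi)) (hx n hn) (hcr i (hΓS hi) n hn (hni i hi))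
    have h3 : ∑ i ∈ Γ, (logHeight (x i) + logHeight (x n) -
        logHeight (crossProduct (x i) (x n))) = ∑ i ∈ Γ, logHeight (x i) +
        Γ.card * logHeight (x n) - ∑ i ∈ Γ, logHeight (crossProduct (x i) (x n)) := by
      rw [Finset.sum_sub_distrib, Finset.sum_add_distrib, Finset.sum_const, nsmul_eq_mul]
    have hHi : 0 ≤ ∑ i ∈ Γ, logHeight (x i) := Finset.sum_nonneg fun i _ => logHeight_nonneg _
    -- the upper bound
    have h4 : ((archAbsVal (K := K)).map fun v => ∑ i ∈ Γ, ct v (x i) (x n)).sum ≤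
        A * logHeight (x n) + ((archAbsVal (K := K)).map κ).sum := by
      have key : ∀ s : Multiset (AbsoluteValue K ℝ), (∀ v ∈ s, v ∈ archAbsVal (K := K)) →
          (s.map fun v => ∑ i ∈ Γ, ct v (x i) (x n)).sum ≤
            Multiset.card s * logHeight (x n) + (s.map κ).sum := by
        intro s
        induction s using Multiset.induction_on with
        | empty => simp
        | cons w s ih =>
          intro hs
          rw [Multiset.map_cons, Multiset.sum_cons, Multiset.card_cons, Multiset.map_cons,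
            Multiset.sum_cons]
          have h5 := hloc n hn hnΓ' w (Or.inl (hs w (Multiset.mem_cons_self w s)))
          have h6 := ih fun v hv => hs v (Multiset.mem_cons_of_mem hv)
          push_cast
          linarith
      exact key _ fun v hv => hv
    have h5 : ∑ᶠ v : nonarchAbsVal (K := K), ∑ i ∈ Γ, ct v.val (x i) (x n) ≤
        B.card * logHeight (x n) + ∑ v ∈ B, κ v.val +
          ∑ᶠ v : nonarchAbsVal (K := K), ∑ i ∈ Γ, |c i v.val| := by
      have hs1 : (Function.support fun v : nonarchAbsVal (K := K) =>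
          ∑ i ∈ Γ, ct v.val (x i) (x n)).Finite := FS.sum Γ hFS
      have hs2 : (Function.support fun v : nonarchAbsVal (K := K) =>
          ∑ i ∈ Γ, |c i v.val|).Finite := by
        refine (Set.Finite.biUnion Γ.finite_toSet (t := fun i =>
          Function.support fun v : nonarchAbsVal (K := K) => c i v.val)
          (fun i hi => hc i (hΓS hi))).subset ?_
        intro v hv
        rw [Function.mem_support] at hv
        obtain ⟨i, hi, h⟩ := Finset.exists_ne_zero_of_sum_ne_zero hv
        rw [Set.mem_iUnion₂]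
        exact ⟨i, hi, fun h0 => h (abs_eq_zero.2 h0)⟩
      have hs3 : (Function.support fun v : nonarchAbsVal (K := K) =>
          if v ∈ B then logHeight (x n) + κ v.val else 0).Finite := by
        refine B.finite_toSet.subset fun v hv => ?_
        by_contra h
        exact hv (if_neg h)
      have h6 : ∑ᶠ v : nonarchAbsVal (K := K), ∑ i ∈ Γ, ct v.val (x i) (x n) ≤
          ∑ᶠ v : nonarchAbsVal (K := K), ((if v ∈ B then logHeight (x n) + κ v.val else 0) +
            ∑ i ∈ Γ, |c i v.val|) := by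
        refine finsum_le_finsum' hs1 ((hs3.union hs2).subset (Function.support_add _ _)) ?_
        intro v
        by_cases hvB : v ∈ B
        · simp only [if_pos hvB]
          have h7 := hloc n hn hnΓ' v.val (Or.inr v.2)
          have h8 : 0 ≤ ∑ i ∈ Γ, |c i v.val| := Finset.sum_nonneg fun i _ => abs_nonneg _
          linarith
        · simp only [if_neg hvB, zero_add]
          exact Finset.sum_le_sum fun i hi =>
            (hcon i (hΓS hi) n hn (hnΓ i hi) v hvB).trans (le_abs_self _)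
      rw [finsum_add_distrib hs3 hs2] at h6
      have h7 : ∑ᶠ v : nonarchAbsVal (K := K),
          (if v ∈ B then logHeight (x n) + κ v.val else 0) =
          ∑ v ∈ B, (logHeight (x n) + κ v.val) := by
        rw [finsum_eq_sum_of_support_subset (s := B) _ (fun v hv => by
          by_contra h
          exact hv (if_neg h))]
        exact Finset.sum_congr rfl fun v hv => if_pos hv
      rw [h7, Finset.sum_add_distrib, Finset.sum_const, nsmul_eq_mul] at h6
      exact h6
    have h6 : psum (fun v => ∑ i ∈ Γ, ct v (x i) (x n)) ≤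
        A * logHeight (x n) + B.card * logHeight (x n) + C₂ := by
      unfold psum
      rw [hC₂]
      linarith
    rw [h2, h3] at h6
    push_cast at h1
    linarith
  -- the contradiction
  refine hS ?_
  refine ((hht (C + C₂)).union (hX.union (Set.finite_le_nat (Γ.sup id)))).subset ?_
  intro n hn
  by_cases hnX : n ∈ X
  · exact Or.inr (Or.inl hnX)
  by_cases hle : n ≤ Γ.sup id
  · exact Or.inr (Or.inr hle)
  left
  refine ⟨hn, hfin n hn hnX fun i hi => ?_⟩
  exact lt_of_le_of_lt (Finset.le_sup (f := id) hi) (not_le.1 hle)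

end Pool.Agent.Helper72.PC
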