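import Pool.Agent.Helper72.PC.Nrm

/-!
# The key lemma: a large contact forces a cycle outside the critical curve
-/

set_option autoImplicit false

namespace Pool.Agent.Helper72.PC

open MvPolynomial
open Pool.Agent.Helper36 (step iter)
open Pool.Agent.Helper30.TP

variable {K : Type} [Field K]

/-- `v` is a place of good reduction of `F` for the data `g`, `q`, `c`. -/
structure GoodV (v : AbsoluteValue K ℝ) (F : Fin 3 → MvPolynomial (Fin 3) K) (d : ℕ)
    (g q c : MvPolynomial (Fin 3) K) : Prop where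
  na : IsNonarchimedean v
  F_int : ∀ i m, v ((F i).coeff m) ≤ 1
  F_nrm : ∀ x : Fin 3 → K, nrm v (step F x) = nrm v x ^ d
  g_int : ∀ m, v (g.coeff m) ≤ 1
  q_int : ∀ m, v (q.coeff m) ≤ 1
  c_int : ∀ m, v (c.coeff m) ≤ 1

theorem Key_sum_le {v : AbsoluteValue K ℝ} (hv : IsNonarchimedean v) {β : Type} (s : Finset β)
    (l : β → K) {r : ℝ} (hr : 0 ≤ r) (h : ∀ i ∈ s, v (l i) ≤ r) : v (∑ i ∈ s, l i) ≤ r := by
  rcases s.eq_empty_or_nonempty with rfl | hs
  · simpa using hr
  · obtain ⟨b, hb, h1⟩ := IsNonarchimedean.finset_image_add_of_nonempty hv l hs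
    exact h1.trans (h b hb)

theorem Key_degree {P : MvPolynomial (Fin 3) K} {e : ℕ} (hP : P.IsHomogeneous e)
    {m : Fin 3 →₀ ℕ} (hm : m ∈ P.support) : ∑ i ∈ m.support, m i = e := by
  have := hP (MvPolynomial.mem_support_iff.1 hm)
  rw [Finsupp.weight_apply] at this
  simpa [Finsupp.sum] using this

theorem Key_eval_le {v : AbsoluteValue K ℝ} (hv : IsNonarchimedean v)
    {P : MvPolynomial (Fin 3) K} {e : ℕ} (hP : P.IsHomogeneous e) (hi : ∀ m, v (P.coeff m) ≤ 1)
    (x : Fin 3 → K) : v (eval x P) ≤ nrm v x ^ e := by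
  rw [eval_eq]
  refine Key_sum_le hv _ _ (pow_nonneg (nrm_nonneg v x) _) fun m hm => ?_
  rw [map_mul, map_prod, ← Key_degree hP hm, ← Finset.prod_pow_eq_pow_sum]
  have h1 : ∏ i ∈ m.support, v (x i ^ m i) ≤ ∏ i ∈ m.support, nrm v x ^ m i := by
    refine Finset.prod_le_prod (fun i _ => v.nonneg _) fun i _ => ?_
    rw [map_pow]
    exact pow_le_pow_left₀ (v.nonneg _) (le_nrm v x i) _
  calc v (coeff m P) * ∏ i ∈ m.support, v (x i ^ m i)
      ≤ 1 * ∏ i ∈ m.support, nrm v x ^ m i :=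
        mul_le_mul (hi m) h1 (Finset.prod_nonneg fun i _ => v.nonneg _) zero_le_one
    _ = _ := one_mul _

theorem Key_pow_sub {v : AbsoluteValue K ℝ} (hv : IsNonarchimedean v) {a b : K} {M δ : ℝ}
    (hM : 0 ≤ M) (hδ : 0 ≤ δ) (ha : v a ≤ M) (hb : v b ≤ M) (hab : v (a - b) ≤ δ) (k : ℕ) :
    v (a ^ k - b ^ k) * M ≤ M ^ k * δ := by
  induction k with
  | zero => simpa using hδ
  | succ k ih =>
    have h1 : a ^ (k + 1) - b ^ (k + 1) = a * (a ^ k - b ^ k) + (a - b) * b ^ k := by ring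
    rw [h1]
    have h2 : v (a * (a ^ k - b ^ k)) * M ≤ M ^ (k + 1) * δ := by
      rw [map_mul]
      calc v a * v (a ^ k - b ^ k) * M = v a * (v (a ^ k - b ^ k) * M) := by ring
        _ ≤ M * (M ^ k * δ) := mul_le_mul ha ih (mul_nonneg (v.nonneg _) hM) hM
        _ = _ := by ring
    have h3 : v ((a - b) * b ^ k) * M ≤ M ^ (k + 1) * δ := by
      rw [map_mul, map_pow]
      have h4 : v b ^ k ≤ M ^ k := pow_le_pow_left₀ (v.nonneg _) hb _
      calc v (a - b) * v b ^ k * M ≤ δ * M ^ k * M :=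
            mul_le_mul_of_nonneg_right (mul_le_mul hab h4 (pow_nonneg (v.nonneg _) _) hδ) hM
        _ = _ := by ring
    have h5 := mul_le_mul_of_nonneg_right (hv (a * (a ^ k - b ^ k)) ((a - b) * b ^ k)) hM
    rw [max_mul_of_nonneg _ _ hM] at h5
    exact h5.trans (max_le h2 h3)

theorem Key_prod_sub {v : AbsoluteValue K ℝ} (hv : IsNonarchimedean v) {u w : Fin 3 → K}
    {M δ : ℝ} (hM : 0 ≤ M) (hδ : 0 ≤ δ) (hu : ∀ i, v (u i) ≤ M) (hw : ∀ i, v (w i) ≤ M)
    (huw : ∀ i, v (u i - w i) ≤ δ) (m : Fin 3 → ℕ) (s : Finset (Fin 3)) :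
    v (∏ i ∈ s, u i ^ m i - ∏ i ∈ s, w i ^ m i) * M ≤ M ^ (∑ i ∈ s, m i) * δ := by
  classical
  induction s using Finset.induction_on with
  | empty => simpa using hδ
  | insert j s hj ih =>
    rw [Finset.prod_insert hj, Finset.prod_insert hj, Finset.sum_insert hj, pow_add]
    have h1 : u j ^ m j * ∏ i ∈ s, u i ^ m i - w j ^ m j * ∏ i ∈ s, w i ^ m i =
        u j ^ m j * (∏ i ∈ s, u i ^ m i - ∏ i ∈ s, w i ^ m i) +
          (u j ^ m j - w j ^ m j) * ∏ i ∈ s, w i ^ m i := by ring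
    rw [h1]
    have h2 : v (u j ^ m j * (∏ i ∈ s, u i ^ m i - ∏ i ∈ s, w i ^ m i)) * M ≤
        M ^ m j * M ^ (∑ i ∈ s, m i) * δ := by
      rw [map_mul, map_pow]
      calc v (u j) ^ m j * v (∏ i ∈ s, u i ^ m i - ∏ i ∈ s, w i ^ m i) * M =
            v (u j) ^ m j * (v (∏ i ∈ s, u i ^ m i - ∏ i ∈ s, w i ^ m i) * M) := by ring
        _ ≤ M ^ m j * (M ^ (∑ i ∈ s, m i) * δ) :=
          mul_le_mul (pow_le_pow_left₀ (v.nonneg _) (hu j) _) ih
            (mul_nonneg (v.nonneg _) hM) (pow_nonneg hM _)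
        _ = _ := by ring
    have h3 : v ((u j ^ m j - w j ^ m j) * ∏ i ∈ s, w i ^ m i) * M ≤
        M ^ m j * M ^ (∑ i ∈ s, m i) * δ := by
      rw [map_mul, map_prod]
      have h4 := Key_pow_sub hv hM hδ (hu j) (hw j) (huw j) (m j)
      have h5 : ∏ i ∈ s, v (w i ^ m i) ≤ M ^ (∑ i ∈ s, m i) := by
        rw [← Finset.prod_pow_eq_pow_sum]
        refine Finset.prod_le_prod (fun i _ => v.nonneg _) fun i _ => ?_
        rw [map_pow]
        exact pow_le_pow_left₀ (v.nonneg _) (hw i) _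
      calc v (u j ^ m j - w j ^ m j) * (∏ i ∈ s, v (w i ^ m i)) * M =
            (v (u j ^ m j - w j ^ m j) * M) * ∏ i ∈ s, v (w i ^ m i) := by ring
        _ ≤ (M ^ m j * δ) * M ^ (∑ i ∈ s, m i) :=
          mul_le_mul h4 h5 (Finset.prod_nonneg fun i _ => v.nonneg _)
            (mul_nonneg (pow_nonneg hM _) hδ)
        _ = _ := by ring
    have h5 := mul_le_mul_of_nonneg_right
      (hv (u j ^ m j * (∏ i ∈ s, u i ^ m i - ∏ i ∈ s, w i ^ m i))
        ((u j ^ m j - w j ^ m j) * ∏ i ∈ s, w i ^ m i)) hM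
    rw [max_mul_of_nonneg _ _ hM] at h5
    exact h5.trans (max_le h2 h3)

theorem Key_eval_sub {v : AbsoluteValue K ℝ} (hv : IsNonarchimedean v)
    {P : MvPolynomial (Fin 3) K} {e : ℕ} (hP : P.IsHomogeneous e) (hi : ∀ m, v (P.coeff m) ≤ 1)
    {u w : Fin 3 → K} {M δ : ℝ} (hM : 0 < M) (hδ : 0 ≤ δ) (hu : ∀ i, v (u i) ≤ M)
    (hw : ∀ i, v (w i) ≤ M) (huw : ∀ i, v (u i - w i) ≤ δ) :
    v (eval u P - eval w P) * M ≤ M ^ e * δ := by
  rw [← le_div_iff₀ hM, eval_eq, eval_eq, ← Finset.sum_sub_distrib]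
  refine Key_sum_le hv _ _ (by positivity) fun m hm => ?_
  rw [← mul_sub, map_mul, le_div_iff₀ hM, ← Key_degree hP hm]
  have h1 := Key_prod_sub hv hM.le hδ hu hw huw m m.support
  calc v (coeff m P) * v (∏ i ∈ m.support, u i ^ m i - ∏ i ∈ m.support, w i ^ m i) * M =
        v (coeff m P) * (v (∏ i ∈ m.support, u i ^ m i - ∏ i ∈ m.support, w i ^ m i) * M) := by
        ring
    _ ≤ 1 * (M ^ (∑ i ∈ m.support, m i) * δ) :=
        mul_le_mul (hi m) h1 (mul_nonneg (v.nonneg _) hM.le) zero_le_one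
    _ = _ := one_mul _

theorem Key_minor (v : AbsoluteValue K ℝ) (x y : Fin 3 → K) (p i : Fin 3) :
    v (x p * y i - y p * x i) ≤ nrm v (crossProduct x y) := by
  have h0 := le_nrm v (crossProduct x y) 0
  have h1 := le_nrm v (crossProduct x y) 1
  have h2 := le_nrm v (crossProduct x y) 2
  have hn := nrm_nonneg v (crossProduct x y)
  rw [cross_apply] at h0 h1 h2 hn ⊢
  simp only [Matrix.cons_val_zero, Matrix.cons_val_one, Matrix.cons_val] at h0 h1 h2
  have neg : ∀ a b : K, a = -b → v a = v b := fun a b h => by rw [h, v.map_neg]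
  fin_cases p <;> fin_cases i <;> simp only [Fin.zero_eta, Fin.mk_one, Fin.reduceFinMk]
  · rw [show x 0 * y 0 - y 0 * x 0 = 0 by ring, map_zero]; exact hn
  · rw [show x 0 * y 1 - y 0 * x 1 = x 0 * y 1 - x 1 * y 0 by ring]; exact h2
  · rw [neg (x 0 * y 2 - y 0 * x 2) (x 2 * y 0 - x 0 * y 2) (by ring)]; exact h1
  · rw [neg (x 1 * y 0 - y 1 * x 0) (x 0 * y 1 - x 1 * y 0) (by ring)]; exact h2
  · rw [show x 1 * y 1 - y 1 * x 1 = 0 by ring, map_zero]; exact hn
  · rw [show x 1 * y 2 - y 1 * x 2 = x 1 * y 2 - x 2 * y 1 by ring]; exact h0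
  · rw [show x 2 * y 0 - y 2 * x 0 = x 2 * y 0 - x 0 * y 2 by ring]; exact h1
  · rw [neg (x 2 * y 1 - y 2 * x 1) (x 1 * y 2 - x 2 * y 1) (by ring)]; exact h0
  · rw [show x 2 * y 2 - y 2 * x 2 = 0 by ring, map_zero]; exact hn

/-- The hypothesis on the contact without logarithms. -/
theorem Key_lt {v : AbsoluteValue K ℝ} {x y : Fin 3 → K} (hx : x ≠ 0) (hy : y ≠ 0) {D : ℕ}
    {A : ℝ} (hA : 0 < A)
    (h : D * Real.log (nrm v x) - Real.log A < ct v x y) :
    nrm v (crossProduct x y) * nrm v x ^ D < A * (nrm v x * nrm v y) := by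
  have hX := nrm_pos v hx
  have hY := nrm_pos v hy
  rcases (nrm_nonneg v (crossProduct x y)).eq_or_lt with h0 | h0
  · rw [← h0, zero_mul]
    positivity
  · rw [← Real.log_lt_log_iff (by positivity) (by positivity), Real.log_mul h0.ne' (by positivity),
      Real.log_pow, Real.log_mul hA.ne' (by positivity), Real.log_mul hX.ne' hY.ne']
    unfold ct at h
    linarith

/-- Equal values of a form at points with large contact. -/
theorem val_eq_of_ct {v : AbsoluteValue K ℝ} (hv : IsNonarchimedean v)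
    {g : MvPolynomial (Fin 3) K} {D : ℕ} (hg : g.IsHomogeneous D) (hgi : ∀ m, v (g.coeff m) ≤ 1)
    {x y : Fin 3 → K} (hx : x ≠ 0) (hy : y ≠ 0) (hgx : eval x g ≠ 0)
    (h : D * Real.log (nrm v x) - Real.log (v (eval x g)) < ct v x y) :
    v (eval y g) * nrm v x ^ D = v (eval x g) * nrm v y ^ D := by
  have hX := nrm_pos v hx
  have hY := nrm_pos v hy
  have hA : 0 < v (eval x g) := v.pos hgx
  have hlt := Key_lt hx hy hA h
  have hle := Key_eval_le hv hg hgi x
  have hW : nrm v (crossProduct x y) < nrm v x * nrm v y := by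
    have h1 : nrm v (crossProduct x y) * nrm v x ^ D <
        (nrm v x * nrm v y) * nrm v x ^ D := by
      refine hlt.trans_le ?_
      rw [mul_comm]
      exact mul_le_mul_of_nonneg_left hle (by positivity)
    exact lt_of_mul_lt_mul_right h1 (by positivity)
  obtain ⟨p, hp⟩ := exists_eq_nrm v x
  -- the coordinate of `y`
  have hyp : v (y p) = nrm v y := by
    obtain ⟨i, hi⟩ := exists_eq_nrm v y
    refine le_antisymm (le_nrm v y p) ?_
    have h1 : v (x p * y i) = nrm v x * nrm v y := by rw [map_mul, hp, hi]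
    have h2 := Key_minor v x y p i
    have h3 : v (y p * x i) = v (x p * y i) := by
      have h4 : v (-(x p * y i - y p * x i)) < v (x p * y i) := by
        rw [v.map_neg, h1]
        exact h2.trans_lt hW
      have h5 := IsNonarchimedean.add_eq_right_of_lt hv h4
      rw [← h5]
      congr 1
      ring
    rw [h1, map_mul] at h3
    have h6 : nrm v x * nrm v y ≤ v (y p) * nrm v x := by
      rw [← h3]
      exact mul_le_mul_of_nonneg_left (le_nrm v x i) (v.nonneg _)
    rw [mul_comm] at h6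
    exact le_of_mul_le_mul_right h6 hX
  -- the difference
  have hdiff := Key_eval_sub hv hg hgi (u := x p • y) (w := y p • x)
    (M := nrm v x * nrm v y) (δ := nrm v (crossProduct x y)) (by positivity)
    (nrm_nonneg _ _)
    (fun i => by
      rw [Pi.smul_apply, smul_eq_mul, map_mul, hp]
      exact mul_le_mul_of_nonneg_left (le_nrm v y i) hX.le)
    (fun i => by
      rw [Pi.smul_apply, smul_eq_mul, map_mul, hyp, mul_comm]
      exact mul_le_mul_of_nonneg_right (le_nrm v x i) hY.le)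
    (fun i => Key_minor v x y p i)
  rw [eval_smul_hom hg, eval_smul_hom hg] at hdiff
  have h1 : v (y p ^ D * eval x g) = nrm v y ^ D * v (eval x g) := by
    rw [map_mul, map_pow, hyp]
  have h2 : v (x p ^ D * eval y g - y p ^ D * eval x g) < v (y p ^ D * eval x g) := by
    rw [h1]
    refine lt_of_mul_lt_mul_right (a := nrm v x * nrm v y) ?_ (by positivity)
    refine hdiff.trans_lt ?_
    calc (nrm v x * nrm v y) ^ D * nrm v (crossProduct x y) =
          nrm v y ^ D * (nrm v (crossProduct x y) * nrm v x ^ D) := by ring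
      _ < nrm v y ^ D * (v (eval x g) * (nrm v x * nrm v y)) :=
          mul_lt_mul_of_pos_left hlt (by positivity)
      _ = _ := by ring
  have h3 := IsNonarchimedean.add_eq_right_of_lt hv h2
  rw [sub_add_cancel, h1, map_mul, map_pow, hp] at h3
  linarith

theorem Key_jf_le {v : AbsoluteValue K ℝ} (hv : IsNonarchimedean v)
    {F : Fin 3 → MvPolynomial (Fin 3) K} {d : ℕ} (hF : ∀ i, (F i).IsHomogeneous d)
    (hi : ∀ i m, v ((F i).coeff m) ≤ 1) (x : Fin 3 → K) :
    v (eval x (jf F)) ≤ nrm v x ^ (3 * (d - 1)) := by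
  rw [eval_jf, Matrix.det_apply]
  refine Key_sum_le hv _ _ (pow_nonneg (nrm_nonneg v x) _) fun σ _ => ?_
  have h1 : v (∏ i, jac F x (σ i) i) ≤ nrm v x ^ (3 * (d - 1)) := by
    rw [map_prod]
    have h2 : ∀ i : Fin 3, v (jac F x (σ i) i) ≤ nrm v x ^ (d - 1) := by
      intro i
      refine Key_eval_le hv ((hF (σ i)).pderiv) (fun m => ?_) x
      rw [coeff_pderiv, map_mul]
      have h3 : v ((m i : K) + 1) ≤ 1 := by
        have h4 := IsNonarchimedean.apply_natCast_le_one hv (n := m i + 1)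
        rwa [Nat.cast_add, Nat.cast_one] at h4
      calc v (coeff (m + Finsupp.single i 1) (F (σ i))) * v ((m i : K) + 1) ≤ 1 * 1 :=
            mul_le_mul (hi _ _) h3 (v.nonneg _) zero_le_one
        _ = 1 := one_mul 1
    calc ∏ i, v (jac F x (σ i) i) ≤ ∏ _i : Fin 3, nrm v x ^ (d - 1) :=
          Finset.prod_le_prod (fun i _ => v.nonneg _) fun i _ => h2 i
      _ = _ := by
        rw [Finset.prod_const, Finset.card_univ, Fintype.card_fin, ← pow_mul, mul_comm]
  rcases Int.units_eq_one_or (Equiv.Perm.sign σ) with h | h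
  · rw [h, one_smul]
    exact h1
  · rw [h, Units.neg_smul, one_smul, v.map_neg]
    exact h1

/-- The key lemma. -/
theorem key {v : AbsoluteValue K ℝ} {F : Fin 3 → MvPolynomial (Fin 3) K} {d : ℕ}
    (hF : ∀ i, (F i).IsHomogeneous d) {g q c : MvPolynomial (Fin 3) K} {D e t E : ℕ}
    (hP : PCFdata F g q c D e t E) (hv : GoodV v F d g q c) {a : Fin 3 → K}
    (ha : ∀ n, iter F a n ≠ 0) {i n : ℕ} (hin : i < n) (hgi : eval (iter F a i) g ≠ 0)
    (h : D * Real.log (nrm v (iter F a i)) - Real.log (v (eval (iter F a i) g)) <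
      ct v (iter F a i) (iter F a n)) :
    0 < ct v (iter F a i) (iter F a n) ∧
    ∀ j, i ≤ j → j < n → v (eval (iter F a j) (jf F)) = nrm v (iter F a j) ^ (3 * (d - 1)) := by
  have hN : ∀ j, 0 < nrm v (iter F a j) := fun j => nrm_pos v (ha j)
  have hnext : ∀ j, eval (iter F a (j + 1)) g =
      eval (iter F a j) g * eval (iter F a j) q := by
    intro j
    rw [← map_mul, ← hP.comp, Pool.Agent.Helper36.iter_succ]
    have h1 : (eval (iter F a j)).comp (aeval F).toRingHom =
        eval (step F (iter F a j)) := by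
      apply MvPolynomial.ringHom_ext
      · intro r
        simp
      · intro k
        simp only [RingHom.comp_apply, eval_X]
        change eval (iter F a j) (aeval F (X k)) = step F (iter F a j) k
        rw [aeval_X]
        exact (congrArg (fun φ => φ (F k)) (coe_aeval_eq_eval (iter F a j))).symm
    exact (congrArg (fun φ => φ g) h1).symm
  have hNs : ∀ j, nrm v (iter F a (j + 1)) = nrm v (iter F a j) ^ d := by
    intro j
    rw [Pool.Agent.Helper36.iter_succ, hv.F_nrm]
  have heq := val_eq_of_ct hv.na hP.g_hom hv.g_int (ha i) (ha n) hgi h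
  have hgn : eval (iter F a n) g ≠ 0 := by
    intro h0
    rw [h0, map_zero, zero_mul] at heq
    exact mul_ne_zero (v.ne_zero hgi) (pow_pos (hN n) D).ne' heq.symm
  have hgne : ∀ j, j ≤ n → eval (iter F a j) g ≠ 0 := by
    intro j hj h0
    obtain ⟨k, rfl⟩ := Nat.exists_eq_add_of_le hj
    apply hgn
    clear hj hin heq hgn h
    induction k with
    | zero => exact h0
    | succ k ih => rw [← add_assoc, hnext, ih, zero_mul]
  have hqne : ∀ j, j < n → eval (iter F a j) q ≠ 0 := by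
    intro j hj h0
    apply hgne (j + 1) hj
    rw [hnext, h0, mul_zero]
  have hq0 : q ≠ 0 := by
    rintro rfl
    exact hqne i hin (map_zero _)
  have hdeg : d * D = D + e := by
    have h1 : (aeval F g).IsHomogeneous (d * D) := hP.g_hom.aeval F hF
    rw [hP.comp] at h1
    exact h1.inj_right (hP.g_hom.mul hP.q_hom) (mul_ne_zero hP.g_ne hq0)
  -- the ratio
  set ρ : ℕ → ℝ := fun j => v (eval (iter F a j) g) / nrm v (iter F a j) ^ D with hρ
  have hqle : ∀ j, v (eval (iter F a j) q) ≤ nrm v (iter F a j) ^ e := fun j =>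
    Key_eval_le hv.na hP.q_hom hv.q_int _
  have hstep : ∀ j, ρ (j + 1) = ρ j * (v (eval (iter F a j) q) / nrm v (iter F a j) ^ e) := by
    intro j
    simp only [hρ]
    rw [hnext, hNs, ← pow_mul, hdeg, map_mul, pow_add, mul_div_mul_comm]
  have hρ0 : ∀ j, 0 ≤ ρ j := fun j => div_nonneg (v.nonneg _) (pow_pos (hN j) _).le
  have hanti : Antitone ρ := by
    refine antitone_nat_of_succ_le fun j => ?_
    rw [hstep]
    refine mul_le_of_le_one_right (hρ0 j) ?_
    rw [div_le_one (pow_pos (hN j) _)]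
    exact hqle j
  have hend : ρ n = ρ i := by
    simp only [hρ]
    rw [div_eq_div_iff (pow_pos (hN n) _).ne' (pow_pos (hN i) _).ne']
    exact heq
  refine ⟨?_, fun j hij hjn => ?_⟩
  · refine lt_of_le_of_lt ?_ h
    have h1 := Key_eval_le hv.na hP.g_hom hv.g_int (iter F a i)
    have h2 := Real.log_le_log (v.pos hgi) h1
    rw [Real.log_pow] at h2
    linarith
  · have h1 : ρ (j + 1) = ρ j :=
      le_antisymm (hanti (Nat.le_succ j))
        (((hanti hij).trans hend.symm.le).trans (hanti hjn))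
    have hρj : 0 < ρ j := div_pos (v.pos (hgne j hjn.le)) (pow_pos (hN j) _)
    have h2 : v (eval (iter F a j) q) = nrm v (iter F a j) ^ e := by
      rw [hstep] at h1
      have h3 : v (eval (iter F a j) q) / nrm v (iter F a j) ^ e = 1 := by
        have h4 : ρ j * (v (eval (iter F a j) q) / nrm v (iter F a j) ^ e) = ρ j * 1 := by
          rw [h1, mul_one]
        exact mul_left_cancel₀ hρj.ne' h4
      exact (div_eq_one_iff_eq (pow_pos (hN j) _).ne').1 h3
    have h5 : e * E = 3 * (d - 1) + t := by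
      have h6 : (q ^ E).IsHomogeneous (e * E) := hP.q_hom.pow E
      have h7 := (jf_hom hF).mul hP.c_hom
      rw [← hP.crit] at h7
      exact h6.inj_right h7 (pow_ne_zero _ hq0)
    have h6 : v (eval (iter F a j) (jf F)) * v (eval (iter F a j) c) =
        nrm v (iter F a j) ^ (3 * (d - 1)) * nrm v (iter F a j) ^ t := by
      rw [← map_mul, ← map_mul, ← hP.crit, map_pow, map_pow, h2, ← pow_mul, h5, pow_add]
    have h7 := Key_jf_le hv.na hF hv.F_int (iter F a j)
    have h8 := Key_eval_le hv.na hP.c_hom hv.c_int (iter F a j)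
    refine le_antisymm h7 ?_
    by_contra hlt
    push Not at hlt
    have h9 : v (eval (iter F a j) (jf F)) * v (eval (iter F a j) c) <
        nrm v (iter F a j) ^ (3 * (d - 1)) * nrm v (iter F a j) ^ t :=
      mul_lt_mul_of_lt_of_le_of_nonneg_of_pos hlt h8 (v.nonneg _) (pow_pos (hN j) _)
    exact h9.ne h6

end Pool.Agent.Helper72.PC
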