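import Pool.Agent.Helper72.PC.Defs

/-!
# The sum over all places
-/

set_option autoImplicit false

namespace Pool.Agent.Helper72.PC

open Height Height.AdmissibleAbsValues

variable {K : Type} [Field K] [AdmissibleAbsValues K]

theorem FS.add {φ ψ : AbsoluteValue K ℝ → ℝ} (hφ : FS φ) (hψ : FS ψ) :
    FS (fun v => φ v + ψ v) := by
  refine (hφ.union hψ).subset fun v hv => ?_
  by_contra h
  simp only [Set.mem_union, Function.mem_support, not_or, not_not] at h
  simp only [Function.mem_support] at hv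
  rw [h.1, h.2, add_zero] at hv
  exact hv rfl

theorem FS.neg {φ : AbsoluteValue K ℝ → ℝ} (hφ : FS φ) : FS (fun v => - φ v) := by
  refine hφ.subset fun v hv => ?_
  simp only [Function.mem_support] at hv ⊢
  exact fun h => hv (by rw [h, neg_zero])

theorem FS.sub {φ ψ : AbsoluteValue K ℝ → ℝ} (hφ : FS φ) (hψ : FS ψ) :
    FS (fun v => φ v - ψ v) := by
  have h := hφ.add hψ.neg
  simp only [← sub_eq_add_neg] at h
  exact h

theorem FS.const_mul {φ : AbsoluteValue K ℝ → ℝ} (c : ℝ) (hφ : FS φ) :
    FS (fun v => c * φ v) := by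
  refine hφ.subset fun v hv => ?_
  simp only [Function.mem_support] at hv ⊢
  exact fun h => hv (by rw [h, mul_zero])

theorem FS.sum {ι : Type} (s : Finset ι) {φ : ι → AbsoluteValue K ℝ → ℝ}
    (h : ∀ i ∈ s, FS (φ i)) : FS (fun v => ∑ i ∈ s, φ i v) := by
  classical
  induction s using Finset.induction_on with
  | empty =>
    have h0 : (fun v : AbsoluteValue K ℝ => ∑ i ∈ (∅ : Finset ι), φ i v) = fun _ => (0 : ℝ) := by
      funext v
      exact Finset.sum_empty
    rw [h0]
    refine Set.finite_empty.subset fun v hv => ?_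
    simp only [Function.mem_support] at hv
    exact absurd rfl hv
  | insert a s ha ih =>
    have h1 := (h a (Finset.mem_insert_self a s)).add
      (ih fun i hi => h i (Finset.mem_insert_of_mem hi))
    have e : (fun v : AbsoluteValue K ℝ => ∑ i ∈ insert a s, φ i v) =
        fun v => φ a v + ∑ i ∈ s, φ i v := by
      funext v
      exact Finset.sum_insert ha
    rw [e]
    exact h1

theorem psum_add {φ ψ : AbsoluteValue K ℝ → ℝ} (hφ : FS φ) (hψ : FS ψ) :
    psum (fun v => φ v + ψ v) = psum φ + psum ψ := by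
  unfold psum
  rw [Multiset.sum_map_add, finsum_add_distrib hφ hψ]
  ring

theorem psum_neg {φ : AbsoluteValue K ℝ → ℝ} : psum (fun v => - φ v) = - psum φ := by
  unfold psum
  have h := finsum_neg_distrib (fun v : nonarchAbsVal (K := K) => φ v.val)
  rw [Multiset.sum_map_neg, neg_add, ← h]

theorem psum_sub {φ ψ : AbsoluteValue K ℝ → ℝ} (hφ : FS φ) (hψ : FS ψ) :
    psum (fun v => φ v - ψ v) = psum φ - psum ψ := by
  have h := psum_add hφ hψ.neg
  rw [psum_neg] at h
  simp only [← sub_eq_add_neg] at h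
  exact h

theorem psum_const_mul (c : ℝ) {φ : AbsoluteValue K ℝ → ℝ} (hφ : FS φ) :
    psum (fun v => c * φ v) = c * psum φ := by
  unfold psum
  have h := mul_finsum (fun v : nonarchAbsVal (K := K) => φ v.val) c
  rw [Multiset.sum_map_mul_left, mul_add, h]

theorem psum_sum {ι : Type} (s : Finset ι) {φ : ι → AbsoluteValue K ℝ → ℝ}
    (h : ∀ i ∈ s, FS (φ i)) : psum (fun v => ∑ i ∈ s, φ i v) = ∑ i ∈ s, psum (φ i) := by
  classical
  induction s using Finset.induction_on with
  | empty =>
    simp only [Finset.sum_empty]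
    unfold psum
    rw [finsum_zero, Multiset.sum_map_zero, add_zero]
  | insert a s ha ih =>
    rw [Finset.sum_insert ha, ← ih fun i hi => h i (Finset.mem_insert_of_mem hi),
      ← psum_add (h a (Finset.mem_insert_self a s))
        (FS.sum s fun i hi => h i (Finset.mem_insert_of_mem hi))]
    simp only [Finset.sum_insert ha]

theorem psum_le {φ ψ : AbsoluteValue K ℝ → ℝ} (hφ : FS φ) (hψ : FS ψ)
    (h1 : ∀ v ∈ archAbsVal (K := K), φ v ≤ ψ v) (h2 : ∀ v ∈ nonarchAbsVal (K := K), φ v ≤ ψ v) :
    psum φ ≤ psum ψ := by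
  unfold psum
  refine add_le_add (Multiset.sum_map_le_sum_map _ _ h1) ?_
  exact finsum_le_finsum' hφ hψ fun v => h2 v.1 v.2

/-- The product formula. -/
theorem FS_log {z : K} (hz : z ≠ 0) : FS (fun v : AbsoluteValue K ℝ => Real.log (v z)) := by
  refine (hasFiniteMulSupport (K := K) hz).subset fun v hv => ?_
  simp only [Function.mem_support] at hv
  rw [Function.mem_mulSupport]
  exact fun h => hv (by rw [h, Real.log_one])

theorem psum_log {z : K} (hz : z ≠ 0) :
    psum (fun v : AbsoluteValue K ℝ => Real.log (v z)) = 0 := by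
  have hpos : ∀ v : AbsoluteValue K ℝ, 0 < v z := fun v => v.pos hz
  have h := product_formula (K := K) hz
  have h1 : ∀ a ∈ (archAbsVal (K := K)).map (fun v => v z), a ≠ 0 := by
    intro a ha
    obtain ⟨v, -, rfl⟩ := Multiset.mem_map.1 ha
    exact (hpos v).ne'
  have h2 : ((archAbsVal (K := K)).map (fun v => v z)).prod ≠ 0 := by
    intro h3
    rw [h3, zero_mul] at h
    exact zero_ne_one h
  have h3 : ∏ᶠ v : nonarchAbsVal (K := K), v.val z ≠ 0 := by
    intro h4
    rw [h4, mul_zero] at h
    exact zero_ne_one h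
  have h4 := congrArg Real.log h
  have h5 := Real.log_finprod (f := fun v : nonarchAbsVal (K := K) => v.val z)
    (fun v => hpos v.val)
  rw [Real.log_mul h2 h3, Real.log_one, Real.log_multiset_prod h1, Multiset.map_map, h5] at h4
  unfold psum
  exact h4

omit [AdmissibleAbsValues K] in
private theorem nrm_pos' (v : AbsoluteValue K ℝ) {x : Fin 3 → K} (hx : x ≠ 0) :
    0 < nrm v x := by
  obtain ⟨i, hi⟩ : ∃ i, x i ≠ 0 := Function.ne_iff.1 hx
  exact (v.pos hi).trans_le (Finite.le_ciSup (fun i => v (x i)) i)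

/-- The height. -/
theorem FS_nrm {x : Fin 3 → K} (hx : x ≠ 0) :
    FS (fun v : AbsoluteValue K ℝ => Real.log (nrm v x)) := by
  classical
  have hfin : (⋃ i ∈ {i : Fin 3 | x i ≠ 0}, {v : nonarchAbsVal (K := K) | v.val (x i) ≠ 1}).Finite :=
    Set.Finite.biUnion (Set.toFinite _) fun i hi => hasFiniteMulSupport (K := K) hi
  refine hfin.subset fun v hv => ?_
  by_contra h
  simp only [Set.mem_iUnion, Set.mem_setOf_eq, not_exists, not_not] at h
  simp only [Function.mem_support] at hv
  refine hv ?_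
  have h1 : nrm v.val x = 1 := by
    obtain ⟨i, hi⟩ : ∃ i, x i ≠ 0 := Function.ne_iff.1 hx
    refine le_antisymm (ciSup_le fun j => ?_) ?_
    · by_cases hj : x j = 0
      · rw [hj, map_zero]
        exact zero_le_one
      · exact (h j hj).le
    · rw [← h i hi]
      exact Finite.le_ciSup (fun i => v.val (x i)) i
  rw [h1, Real.log_one]

theorem psum_nrm {x : Fin 3 → K} (hx : x ≠ 0) :
    psum (fun v : AbsoluteValue K ℝ => Real.log (nrm v x)) = logHeight x := by
  rw [logHeight_eq_log_mulHeight, mulHeight_eq hx]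
  have hpos : ∀ v : AbsoluteValue K ℝ, 0 < ⨆ i, v (x i) := fun v => nrm_pos' v hx
  have h1 : ∀ a ∈ (archAbsVal (K := K)).map (fun v => ⨆ i, v (x i)), a ≠ 0 := by
    intro a ha
    obtain ⟨v, -, rfl⟩ := Multiset.mem_map.1 ha
    exact (hpos v).ne'
  have h2 : ((archAbsVal (K := K)).map (fun v => ⨆ i, v (x i))).prod ≠ 0 := by
    rw [Ne, Multiset.prod_eq_zero_iff]
    exact fun h3 => h1 0 h3 rfl
  have h3 : ∏ᶠ v : nonarchAbsVal (K := K), ⨆ i, v.val (x i) ≠ 0 :=
    (finprod_induction (fun y : ℝ => 0 < y) zero_lt_one (fun _ _ => mul_pos)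
      fun v : nonarchAbsVal (K := K) => hpos v.val).ne'
  have h5 := Real.log_finprod (f := fun v : nonarchAbsVal (K := K) => ⨆ i, v.val (x i))
    (fun v => hpos v.val)
  rw [Real.log_mul h2 h3, Real.log_multiset_prod h1, Multiset.map_map, h5]
  rfl

end Pool.Agent.Helper72.PC
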