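import Pool.Agent.Helper72.PC.Nrm
import Pool.Agent.Helper72.PC.Psum
import Pool.Agent.Helper30.TP.Dim3
import Pool.Agent.Helper30.TP.Low

/-!
# The contact inequality on a plane curve over a field with a product formula
-/

set_option autoImplicit false

namespace Pool.Agent.Helper72.PC

open MvPolynomial Height Height.AdmissibleAbsValues
open Pool.Agent.Helper30.TP

section cst

variable {K : Type} [Field K]

open Classical in
/-- The size of the coefficients of a polynomial at a place. -/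
noncomputable def cst (v : AbsoluteValue K ℝ) (P : MvPolynomial (Fin 3) K) : ℝ :=
  if IsNonarchimedean v then Real.log (max 1 (⨆ s : P.support, v (P.coeff s)))
  else Real.log (max 1 ((AddMonoidAlgebra.coeff P).sum fun _ c => v c))

theorem cst_nonneg (v : AbsoluteValue K ℝ) (P : MvPolynomial (Fin 3) K) : 0 ≤ cst v P := by
  unfold cst
  split_ifs
  · exact Real.log_nonneg (le_max_left _ _)
  · exact Real.log_nonneg (le_max_left _ _)

theorem eval_le_cst (v : AbsoluteValue K ℝ) {P : MvPolynomial (Fin 3) K} {e : ℕ}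
    (hP : P.IsHomogeneous e) (x : Fin 3 → K) :
    v (eval x P) ≤ Real.exp (cst v P) * nrm v x ^ e := by
  unfold cst nrm
  split_ifs with h
  · rw [Real.exp_log (lt_of_lt_of_le zero_lt_one (le_max_left _ _))]
    refine (IsNonarchimedean.eval_mvPolynomial_le h hP x).trans ?_
    exact mul_le_mul_of_nonneg_right (le_max_right _ _)
      (pow_nonneg (Real.iSup_nonneg fun i => v.nonneg _) _)
  · rw [Real.exp_log (lt_of_lt_of_le zero_lt_one (le_max_left _ _))]
    refine (AbsoluteValue.eval_mvPolynomial_le v hP x).trans ?_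
    exact mul_le_mul_of_nonneg_right (le_max_right _ _)
      (pow_nonneg (Real.iSup_nonneg fun i => v.nonneg _) _)

theorem coeff_finite [AdmissibleAbsValues K] (P : MvPolynomial (Fin 3) K) :
    {v : nonarchAbsVal (K := K) | ∃ m, P.coeff m ≠ 0 ∧ v.val (P.coeff m) ≠ 1}.Finite := by
  have h : {v : nonarchAbsVal (K := K) | ∃ m, P.coeff m ≠ 0 ∧ v.val (P.coeff m) ≠ 1} ⊆
      ⋃ m ∈ P.support, {v : nonarchAbsVal (K := K) | v.val (P.coeff m) ≠ 1} := by
    rintro v ⟨m, hm, hv⟩
    rw [Set.mem_iUnion₂]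
    exact ⟨m, mem_support_iff.2 hm, hv⟩
  refine Set.Finite.subset (Set.Finite.biUnion P.support.finite_toSet fun m hm => ?_) h
  exact hasFiniteMulSupport (mem_support_iff.1 hm)

theorem cst_FS [AdmissibleAbsValues K] (P : MvPolynomial (Fin 3) K) :
    FS (fun v => cst v P) := by
  refine (coeff_finite P).subset ?_
  intro v hv
  rw [Function.mem_support] at hv
  by_contra hcon
  simp only [Set.mem_ofPred_eq, not_exists, not_and, not_not] at hcon
  apply hv
  change cst v.val P = 0
  unfold cst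
  rw [if_pos (isNonarchimedean _ v.2)]
  have h1 : (⨆ s : P.support, v.val (P.coeff s)) ≤ 1 := by
    refine Real.iSup_le (fun s => ?_) zero_le_one
    exact (hcon s (mem_support_iff.1 s.2)).le
  rw [max_eq_left h1, Real.log_one]

end cst

variable {K : Type} [Field K] [AdmissibleAbsValues K]

theorem sum_ht_cross_le [Infinite K] {x : ℕ → Fin 3 → K} {S : Set ℕ} (hS : S.Infinite)
    (hx : ∀ n ∈ S, x n ≠ 0) (hnp : ∀ n ∈ S, ∀ n' ∈ S, n ≠ n' → ¬ PEq (x n) (x n'))
    {g : MvPolynomial (Fin 3) K} {D : ℕ} (hg : g.IsHomogeneous D) (hirr : Irreducible g)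
    (hgx : ∀ n ∈ S, eval (x n) g = 0) (N : ℕ) :
    ∃ (Γ : Finset ℕ) (C : ℝ) (X : Set ℕ), (↑Γ ⊆ S) ∧ X.Finite ∧
      ∀ n ∈ S, n ∉ X → ∑ i ∈ Γ, logHeight (crossProduct (x i) (x n)) ≤
        ((Γ.card : ℝ) - N) * logHeight (x n) + C := by
  classical
  obtain ⟨Γ, δ, e, G, U, hΓS, hG, hU, heN, hδ, hgG, hgU, hT⟩ :=
    exists_denominator hS hx hnp hg hirr hgx N
  -- the products of linear forms
  have hTh : ∀ a : Γ → Fin 3, (∏ i : Γ, lowL (x i) (a i)).IsHomogeneous Γ.card := by
    intro a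
    have := IsHomogeneous.prod (Finset.univ : Finset Γ) (fun i : Γ => lowL (x i) (a i))
      (fun _ => 1) (fun i _ => lowL_hom _ _)
    simpa using this
  have hT0 : ∀ a : Γ → Fin 3, ∀ i ∈ Γ, eval (x i) (∏ i : Γ, lowL (x i) (a i)) = 0 := by
    intro a i hi
    rw [map_prod]
    refine Finset.prod_eq_zero (Finset.mem_univ (⟨i, hi⟩ : Γ)) ?_
    rw [lowL_eval, cross_self]
    rfl
  choose B hB hBd using fun a => hT _ (hTh a) (hT0 a)
  -- the constant
  set c : AbsoluteValue K ℝ → ℝ := fun v => ∑ a : Γ → Fin 3, cst v (B a) with hc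
  have hcs : FS c := FS.sum _ fun a _ => cst_FS (B a)
  have hcle : ∀ v (a : Γ → Fin 3), cst v (B a) ≤ c v := fun v a =>
    Finset.single_le_sum (f := fun a => cst v (B a)) (fun a _ => cst_nonneg _ _)
      (Finset.mem_univ a)
  -- the exceptional set
  have hfin : ∀ {V : MvPolynomial (Fin 3) K} {t : ℕ}, V.IsHomogeneous t → ¬ g ∣ V →
      {n | n ∈ S ∧ eval (x n) V = 0}.Finite := by
    intro V t hV hgV
    have h1 := finite_common_zeros hg hV hirr hgV (fun n : S => x n) (fun n => hx n n.2)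
      (fun i j hij => hnp i i.2 j j.2 fun h => hij (Subtype.ext h))
    refine (h1.image Subtype.val).subset ?_
    rintro n ⟨hn, h0⟩
    exact ⟨⟨n, hn⟩, ⟨hgx n hn, h0⟩, rfl⟩
  refine ⟨Γ, psum c, {n | n ∈ S ∧ eval (x n) G = 0} ∪
    {n | n ∈ S ∧ eval (x n) U = 0} ∪ (Γ : Set ℕ), hΓS,
    ((hfin hG hgG).union (hfin hU hgU)).union (Finset.finite_toSet _), fun n hn hnE => ?_⟩
  have hGn : eval (x n) G ≠ 0 := fun h => hnE (Or.inl (Or.inl ⟨hn, h⟩))
  have hUn : eval (x n) U ≠ 0 := fun h => hnE (Or.inl (Or.inr ⟨hn, h⟩))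
  have hnΓ : n ∉ Γ := fun h => hnE (Or.inr h)
  have hcr : ∀ i ∈ Γ, crossProduct (x i) (x n) ≠ 0 := fun i hi =>
    cross_ne_zero (hx i (hΓS hi)) (hx n hn)
      (hnp i (hΓS hi) n hn fun h => hnΓ (h ▸ hi))
  -- the relation at the point
  have hrel : ∀ a : Γ → Fin 3, (∏ i : Γ, crossProduct (x i) (x n) (a i)) * eval (x n) U =
      eval (x n) G * eval (x n) (B a) := by
    intro a
    obtain ⟨q, hq⟩ := hBd a
    have h1 := congrArg (eval (x n)) hq
    rw [map_sub, map_mul, map_mul, map_mul, hgx n hn, zero_mul, sub_eq_zero, map_prod] at h1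
    simp only [lowL_eval] at h1
    exact h1
  -- the local estimate
  have hloc : ∀ v : AbsoluteValue K ℝ,
      ∑ i : Γ, Real.log (nrm v (crossProduct (x i) (x n))) + Real.log (v (eval (x n) U)) ≤
      Real.log (v (eval (x n) G)) + c v +
        ((Γ.card + e - δ : ℕ) : ℝ) * Real.log (nrm v (x n)) := by
    intro v
    choose a ha using fun i : Γ => exists_eq_nrm v (crossProduct (x i) (x n))
    have hne : ∀ i : Γ, 0 < nrm v (crossProduct (x i) (x n)) := fun i => nrm_pos v (hcr i i.2)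
    have h1 := congrArg v (hrel a)
    rw [map_mul, map_mul, map_prod] at h1
    simp only [ha] at h1
    have hU0 : 0 < v (eval (x n) U) := v.pos hUn
    have hG0 : 0 < v (eval (x n) G) := v.pos hGn
    have hP0 : 0 < ∏ i : Γ, nrm v (crossProduct (x i) (x n)) :=
      Finset.prod_pos fun i _ => hne i
    have hB0 : 0 < v (eval (x n) (B a)) := by
      by_contra hcon
      have h2 : v (eval (x n) (B a)) = 0 := le_antisymm (not_lt.1 hcon) (v.nonneg _)
      rw [h2, mul_zero] at h1
      exact (mul_pos hP0 hU0).ne' h1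
    have h2 := eval_le_cst v (hB a) (x n)
    have hx0 := nrm_pos v (hx n hn)
    have h3 := Real.log_le_log hB0 h2
    rw [Real.log_mul (Real.exp_ne_zero _) (pow_pos hx0 _).ne', Real.log_exp, Real.log_pow] at h3
    have h6 := congrArg Real.log h1
    rw [Real.log_mul hP0.ne' hU0.ne', Real.log_mul hG0.ne' hB0.ne',
      Real.log_prod fun i _ => (hne i).ne'] at h6
    have h8 := hcle v a
    rw [h6]
    linarith
  -- the sum over the places
  have hs1 : ∀ i ∈ (Finset.univ : Finset Γ),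
      FS (fun v => Real.log (nrm v (crossProduct (x i) (x n)))) := fun i _ => FS_nrm (hcr i i.2)
  have hs2 := FS_log hUn
  have hs3 := FS_log hGn
  have hs4 := FS.const_mul ((Γ.card + e - δ : ℕ) : ℝ) (FS_nrm (hx n hn))
  have hsum := psum_le ((FS.sum _ hs1).add hs2) ((hs3.add hcs).add hs4)
    (fun v _ => hloc v) (fun v _ => hloc v)
  rw [psum_add (FS.sum _ hs1) hs2, psum_add (hs3.add hcs) hs4, psum_add hs3 hcs,
    psum_log hUn, psum_log hGn, psum_const_mul _ (FS_nrm (hx n hn)), psum_nrm (hx n hn),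
    psum_sum _ hs1, add_zero, zero_add] at hsum
  have h9 : ∑ i ∈ Γ, logHeight (crossProduct (x i) (x n)) =
      ∑ i : Γ, psum (fun v => Real.log (nrm v (crossProduct (x i) (x n)))) := by
    rw [← Finset.sum_coe_sort Γ fun i => logHeight (crossProduct (x i) (x n))]
    exact Finset.sum_congr rfl fun i _ => (psum_nrm (hcr i i.2)).symm
  rw [h9]
  have h10 : 0 ≤ logHeight (x n) := logHeight_nonneg _
  have h11 : ((Γ.card + e - δ : ℕ) : ℝ) ≤ (Γ.card : ℝ) - N := by
    have h12 : Γ.card + e - δ + N ≤ Γ.card := by omega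
    have h13 : ((Γ.card + e - δ : ℕ) : ℝ) + (N : ℝ) ≤ (Γ.card : ℝ) := by exact_mod_cast h12
    linarith
  have h12 := mul_le_mul_of_nonneg_right h11 h10
  linarith

end Pool.Agent.Helper72.PC
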