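import Pool.Agent.Helper72.PC.Psum
import Pool.Agent.Helper30.TP.Basic
import Pool.Agent.Helper36.Growth

/-!
# Northcott property of the plane over a number field
-/

set_option autoImplicit false

namespace Pool.Agent.Helper72.PC

open MvPolynomial Height Height.AdmissibleAbsValues
open Pool.Agent.Helper30.TP

theorem northcott {K : Type} [Field K] [NumberField K] {x : ℕ → Fin 3 → K} {S : Set ℕ}
    (hx : ∀ n ∈ S, x n ≠ 0) (hnp : ∀ n ∈ S, ∀ n' ∈ S, n ≠ n' → ¬ PEq (x n) (x n')) (C : ℝ) :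
    {n | n ∈ S ∧ logHeight (x n) ≤ C}.Finite := by
  by_contra hinf
  have hinf' : {n | n ∈ S ∧ logHeight (x n) ≤ C}.Infinite := hinf
  set T : Set ℕ := {n | n ∈ S ∧ logHeight (x n) ≤ C} with hT
  let f : ℕ ↪ T := hinf'.natEmbedding
  have hfT : ∀ n, ((f n : T) : ℕ) ∈ T := fun n => (f n).2
  obtain ⟨n, m, hnm, c, hc, h⟩ := Pool.Agent.Helper36.exists_PEq_of_bounded (K := K)
    (fun n => x (f n)) (fun n => hx _ (hfT n).1) (Real.exp C) (by
      intro n
      have h1 : logHeight (x (f n)) ≤ C := (hfT n).2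
      have h2 : Real.log (mulHeight (x (f n))) ≤ C := h1
      have h3 : 0 < mulHeight (x (f n)) := mulHeight_pos _
      calc mulHeight (x (f n)) = Real.exp (Real.log (mulHeight (x (f n)))) := (Real.exp_log h3).symm
        _ ≤ Real.exp C := Real.exp_le_exp.2 h2)
  refine hnp _ (hfT n).1 _ (hfT m).1 ?_ ⟨c, hc, h⟩
  intro h4
  exact hnm.ne (f.injective (Subtype.ext h4))

end Pool.Agent.Helper72.PC
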