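import Pool.Agent.Helper30.TK2.Prog

/-!
# Simple cases of the Dynamical Mordell-Lang property
-/

set_option autoImplicit false

namespace Pool.Agent.Helper72.PC

open MvPolynomial
open Pool.Agent.Helper36 (step iter iter_zero iter_succ iter_succ' iter_add)
open Pool.Agent.Helper30.TP
open Pool.Agent.Helper30.TK2
open Pool.Agent.Helper63.TK (homog_of_endo iter_ne_zeroK)

/-- The return sets of a scaled point. -/
theorem dml_sets_eq {K : Type} [Field K] [Algebra K ℂ] {d : ℕ}
    {F : Fin 3 → MvPolynomial (Fin 3) K} (hF : IsEndo d fun i => map (algebraMap K ℂ) (F i))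
    (x : Fin 3 → K) {c : ℂ} (hc : c ≠ 0) (S : Set (MvPolynomial (Fin 3) ℂ))
    (hS : ∀ g ∈ S, ∃ e : ℕ, g.IsHomogeneous e) :
    {n : ℕ | ∀ g ∈ S, eval ((fun (x : Fin 3 → ℂ) (i : Fin 3) =>
      eval x (map (algebraMap K ℂ) (F i)))^[n] (fun i => c * algebraMap K ℂ (x i))) g = 0} =
      {n : ℕ | ∀ g ∈ S, eval (fun i => algebraMap K ℂ (iter F x n i)) g = 0} := by
  have horb : ∀ n, (fun (x : Fin 3 → ℂ) (i : Fin 3) =>
      eval x (map (algebraMap K ℂ) (F i)))^[n] (fun i => c * algebraMap K ℂ (x i)) =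
      c ^ d ^ n • fun i => algebraMap K ℂ (iter F x n i) := by
    intro n
    have h1 : (fun (x : Fin 3 → ℂ) (i : Fin 3) => eval x (map (algebraMap K ℂ) (F i))) =
        step fun i => map (algebraMap K ℂ) (F i) := by
      funext x i
      rfl
    rw [h1]
    have h2 : (fun i => c * algebraMap K ℂ (x i)) = c • fun i => algebraMap K ℂ (x i) := rfl
    rw [h2]
    change iter (fun i => map (algebraMap K ℂ) (F i)) (c • fun i => algebraMap K ℂ (x i)) n = _
    rw [iter_smul hF]
    congr 1
    induction n with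
    | zero => rfl
    | succ n ih =>
      rw [iter_succ, ih]
      funext i
      change eval _ (map (algebraMap K ℂ) (F i)) = algebraMap K ℂ (iter F x (n + 1) i)
      rw [iter_succ]
      exact (Pool.Agent.Helper38.Sym.map_eval_gen (algebraMap K ℂ) _ _).symm
  ext n
  refine forall₂_congr fun g hg => ?_
  obtain ⟨e, he⟩ := hS g hg
  rw [horb, eval_smul_hom he, mul_eq_zero]
  exact ⟨fun h => h.resolve_left (pow_ne_zero _ (pow_ne_zero _ hc)), Or.inr⟩

theorem dml_of_sets {K : Type} [Field K] [Algebra K ℂ] {d : ℕ}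
    {F : Fin 3 → MvPolynomial (Fin 3) K} (hF : IsEndo d fun i => map (algebraMap K ℂ) (F i))
    (x : Fin 3 → K) {c : ℂ} (hc : c ≠ 0)
    (h : ∀ S : Set (MvPolynomial (Fin 3) ℂ), (∀ g ∈ S, ∃ e : ℕ, g.IsHomogeneous e) →
      ∃ M n₁ : ℕ, 0 < M ∧ ∀ s < M,
        (∀ l, ∀ g ∈ S, eval (fun i => algebraMap K ℂ (iter F x (n₁ + M * l + s) i)) g = 0) ∨
        {l | ∀ g ∈ S, eval (fun i => algebraMap K ℂ (iter F x (n₁ + M * l + s) i)) g = 0}.Finite) :
    Pool.Agent.Helper38.Sym.DMLgen (fun i => map (algebraMap K ℂ) (F i))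
      (fun i => c * algebraMap K ℂ (x i)) := by
  intro S hS
  rw [dml_sets_eq hF x hc S hS]
  obtain ⟨M, n₁, hM, hs⟩ := h S hS
  exact exists_progressions (n₁ := n₁) hM hs

/-- The property does not change under scaling. -/
theorem dml_smul {K : Type} [Field K] [Algebra K ℂ] {d : ℕ}
    {F : Fin 3 → MvPolynomial (Fin 3) K} (hF : IsEndo d fun i => map (algebraMap K ℂ) (F i))
    (x : Fin 3 → K) {c : ℂ} (hc : c ≠ 0)
    (h : Pool.Agent.Helper38.Sym.DMLgen (fun i => map (algebraMap K ℂ) (F i))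
      (fun i => algebraMap K ℂ (x i))) :
    Pool.Agent.Helper38.Sym.DMLgen (fun i => map (algebraMap K ℂ) (F i))
      (fun i => c * algebraMap K ℂ (x i)) := by
  intro S hS
  obtain ⟨T, hT⟩ := h S hS
  refine ⟨T, ?_⟩
  rw [← hT, dml_sets_eq hF x hc S hS]
  have h1 := dml_sets_eq hF x one_ne_zero S hS
  simp only [one_mul] at h1
  rw [h1]

/-- Preperiodic points. -/
theorem dml_preper {K : Type} [Field K] [Algebra K ℂ] {d : ℕ}
    {F : Fin 3 → MvPolynomial (Fin 3) K} (hF : IsEndo d fun i => map (algebraMap K ℂ) (F i))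
    (x : Fin 3 → K) {c : ℂ} (hc : c ≠ 0) {n m : ℕ} (hnm : n < m)
    (hp : PEq (iter F x n) (iter F x m)) :
    Pool.Agent.Helper38.Sym.DMLgen (fun i => map (algebraMap K ℂ) (F i))
      (fun i => c * algebraMap K ℂ (x i)) := by
  classical
  refine dml_of_sets hF x hc fun S hS => ⟨m - n, n, by omega, fun s _ => ?_⟩
  have hFe : IsEndo d F := isEndoK hF
  have hper : ∀ l, PEq (iter F x (n + s)) (iter F x (n + (m - n) * l + s)) := by
    intro l
    induction l with
    | zero => exact PEq.refl _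
    | succ l ih =>
      refine ih.trans ?_
      have h1 : PEq (iter F (iter F x n) ((m - n) * l + s)) (iter F (iter F x m) ((m - n) * l + s)) :=
        PEq.iter hFe hp _
      rw [← iter_add, ← iter_add] at h1
      rw [show n + (m - n) * l + s = (m - n) * l + s + n by ring,
        show n + (m - n) * (l + 1) + s = (m - n) * l + s + m by
          rw [mul_add, mul_one]
          omega]
      exact h1
  have hiff : ∀ l, (∀ g ∈ S, eval (fun i => algebraMap K ℂ (iter F x (n + (m - n) * l + s) i))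
      g = 0) ↔ ∀ g ∈ S, eval (fun i => algebraMap K ℂ (iter F x (n + s) i)) g = 0 := by
    intro l
    refine forall₂_congr fun g hg => ?_
    obtain ⟨e, he⟩ := hS g hg
    obtain ⟨u, hu, h⟩ := hper l
    have h2 : (fun i => algebraMap K ℂ (iter F x (n + (m - n) * l + s) i)) =
        algebraMap K ℂ u • fun i => algebraMap K ℂ (iter F x (n + s) i) := by
      rw [h]
      funext i
      simp
    rw [h2, eval_smul_hom he, mul_eq_zero]
    have hu' : algebraMap K ℂ u ≠ 0 := by rwa [ne_eq, map_eq_zero]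
    exact ⟨fun h => h.resolve_left (pow_ne_zero _ hu'), Or.inr⟩
  by_cases h0 : ∀ g ∈ S, eval (fun i => algebraMap K ℂ (iter F x (n + s) i)) g = 0
  · exact Or.inl fun l => (hiff l).2 h0
  · right
    convert Set.finite_empty
    ext l
    simp only [Set.mem_ofPred_eq, Set.mem_empty_iff_false, iff_false]
    exact fun h => h0 ((hiff l).1 h)

/-- If all irreducible curves contain only finitely many points of the orbit. -/
theorem dml_finite {K : Type} [Field K] [Algebra K ℂ] {d : ℕ}
    {F : Fin 3 → MvPolynomial (Fin 3) K} (hF : IsEndo d fun i => map (algebraMap K ℂ) (F i))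
    (x : Fin 3 → K) {c : ℂ} (hc : c ≠ 0)
    (h : ∀ (P : MvPolynomial (Fin 3) K) (e : ℕ), P.IsHomogeneous e → Irreducible P →
      {n | eval (iter F x n) P = 0}.Finite) :
    Pool.Agent.Helper38.Sym.DMLgen (fun i => map (algebraMap K ℂ) (F i))
      (fun i => c * algebraMap K ℂ (x i)) := by
  classical
  refine dml_of_sets hF x hc fun S hS => ⟨1, 0, one_pos, fun s hs => ?_⟩
  have hs0 : s = 0 := by omega
  subst hs0
  have hidx : ∀ l, 0 + 1 * l + 0 = l := by intro l; omega
  simp only [hidx]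
  by_cases hall : ∀ l, ∀ g ∈ S, eval (fun i => algebraMap K ℂ (iter F x l i)) g = 0
  · exact Or.inl hall
  right
  push Not at hall
  obtain ⟨l₀, p, hpS, hp⟩ := hall
  obtain ⟨e, he⟩ := hS p hpS
  set B := Module.Basis.ofVectorSpace K ℂ with hB
  obtain ⟨b, hb⟩ : ∃ b, B.coord b
      (eval (fun i => algebraMap K ℂ (iter F x l₀ i)) p) ≠ 0 := by
    by_contra hcon
    push Not at hcon
    exact hp (B.forall_coord_eq_zero_iff.1 hcon)
  rw [← ultra_eval_lam] at hb
  have hP0 : lam (B.coord b) p ≠ 0 := fun h0 => hb (by rw [h0, map_zero])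
  have hPh : (lam (B.coord b) p).IsHomogeneous e := ultra_lam_hom (B.coord b) he
  by_contra hinf
  have hinf2 : {n | eval (iter F x n) (lam (B.coord b) p) = 0}.Infinite := by
    refine Set.Infinite.mono ?_ hinf
    intro l hl
    change eval (iter F x l) (lam (B.coord b) p) = 0
    rw [ultra_eval_lam, hl p hpS, map_zero]
  obtain ⟨ρ, t, hρ, hρi, hρinf⟩ := exists_factor (iter F x) hPh hP0 hinf2
  exact hρinf (h ρ t hρ hρi)

end Pool.Agent.Helper72.PC
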