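import Pool.Agent.Helper72.PC.Bad
import Pool.Agent.Helper72.PC.Contact
import Pool.Agent.Helper72.PC.North
import Pool.Agent.Helper72.PC.Dvr
import Pool.Agent.Helper72.PC.Sets

/-!
# Number fields
-/

set_option autoImplicit false

namespace Pool.Agent.Helper72.PC

open MvPolynomial Height Height.AdmissibleAbsValues
open Pool.Agent.Helper36 (step iter iter_succ iter_add)
open Pool.Agent.Helper30.TP
open Pool.Agent.Helper30.TK2
open Pool.Agent.Helper63.TK (homog_of_endo iter_ne_zeroK)

theorem van_succ {K : Type} [Field K] {F : Fin 3 → MvPolynomial (Fin 3) K}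
    {g q c : MvPolynomial (Fin 3) K} {D e t E : ℕ} (hP : PCFdata F g q c D e t E)
    {x : Fin 3 → K} (h : eval x g = 0) : eval (step F x) g = 0 := by
  have h1 := congrArg (aeval x) hP.comp
  rw [map_mul, comp_aeval_apply] at h1
  have h2 : (aeval x g : K) = 0 := by
    rw [aeval_eq_eval]
    exact h
  rw [h2, zero_mul, aeval_eq_eval] at h1
  exact h1

theorem van_all {K : Type} [Field K] {F : Fin 3 → MvPolynomial (Fin 3) K}
    {g q c : MvPolynomial (Fin 3) K} {D e t E : ℕ} (hP : PCFdata F g q c D e t E)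
    {x : Fin 3 → K} {i : ℕ} (h : eval (iter F x i) g = 0) (l : ℕ) :
    eval (iter F x (i + l)) g = 0 := by
  induction l with
  | zero => exact h
  | succ l ih =>
    rw [← add_assoc, iter_succ]
    exact van_succ hP ih

/-- The Dynamical Mordell-Lang property for post-critically finite endomorphisms of the plane
over a number field. -/
theorem main {K : Type} [Field K] [NumberField K] [Algebra K ℂ] {d : ℕ}
    {F : Fin 3 → MvPolynomial (Fin 3) K} (hF : IsEndo d fun i => map (algebraMap K ℂ) (F i))
    {g q c : MvPolynomial (Fin 3) K} {D e t E : ℕ} (hP : PCFdata F g q c D e t E)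
    {a : Fin 3 → K} (ha : a ≠ 0) (s : ℂ) (hs : s ≠ 0) :
    Pool.Agent.Helper38.Sym.DMLgen (fun i => map (algebraMap K ℂ) (F i))
      (fun i => s * algebraMap K ℂ (a i)) := by
  classical
  have : Infinite K := CharZero.infinite K
  have hne0 : ∀ n, iter F a n ≠ 0 := fun n => iter_ne_zeroK hF ha n
  have hhom : ∀ i, (F i).IsHomogeneous d := fun i => homog_of_endo hF i
  -- preperiodic points
  by_cases hpre : ∃ n m, n < m ∧ PEq (iter F a n) (iter F a m)
  · obtain ⟨n, m, hnm, h⟩ := hpre
    exact dml_preper hF a hs hnm h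
  have hdist : ∀ n m, n ≠ m → ¬ PEq (iter F a n) (iter F a m) := by
    intro n m hnm h
    rcases lt_or_gt_of_ne hnm with hlt | hlt
    · exact hpre ⟨n, m, hlt, h⟩
    · exact hpre ⟨m, n, hlt, h.symm⟩
  -- orbits in the post-critical curve
  by_cases hg : ∃ i, eval (iter F a i) g = 0
  · obtain ⟨i, hi⟩ := hg
    exact dml_of_progression hF ha hdist hP.g_hom hP.g_ne (n₀ := i) (m := 1) one_pos
      (fun l => by
        rw [one_mul]
        exact van_all hP hi l) s hs
  push Not at hg
  -- curves with infinitely many points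
  by_cases hfin : ∀ (P : MvPolynomial (Fin 3) K) (e : ℕ), P.IsHomogeneous e → Irreducible P →
      {n | eval (iter F a n) P = 0}.Finite
  · exact dml_finite hF a hs hfin
  push Not at hfin
  obtain ⟨P, m, hPh, hPi, hPinf⟩ := hfin
  obtain ⟨B, hB⟩ := exists_bad (L := ℂ) hhom (fun x hx => hF.nz x fun i => by
    rw [eval_map]
    exact hx i) g q c
  have hinf : {n | eval (iter F a n) P = 0}.Infinite := hPinf
  obtain ⟨i, hi, n, hn, hin, v, hvB, hct⟩ := exists_contact hinf (fun n _ => hne0 n)
    (fun n _ n' _ h => hdist n n' h) hPh hPi (fun n hn => hn)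
    (fun C => northcott (fun n _ => hne0 n) (fun n _ n' _ h => hdist n n' h) C) B
    (fun i v => D * Real.log (nrm v (iter F a i)) - Real.log (v (eval (iter F a i) g)))
    (fun i _ => (FS.const_mul _ (FS_nrm (hne0 i))).sub (FS_log (hg i)))
  have hv := hB v hvB
  obtain ⟨hpos, hJ⟩ := key hhom hP hv hne0 hin (hg i) hct
  exact dml_smul hF a hs (dml_of_place v hv.na hhom hv.F_int hv.F_nrm ha hin hpos hJ)

end Pool.Agent.Helper72.PC
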