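import Pool.Agent.Helper72.PC.Defs

/-!
# Local inequalities
-/

set_option autoImplicit false

namespace Pool.Agent.Helper72.PC

variable {K : Type} [Field K]

theorem nrm_nonneg (v : AbsoluteValue K ℝ) (x : Fin 3 → K) : 0 ≤ nrm v x :=
  Real.iSup_nonneg fun i => v.nonneg (x i)

theorem le_nrm (v : AbsoluteValue K ℝ) (x : Fin 3 → K) (i : Fin 3) : v (x i) ≤ nrm v x :=
  le_ciSup (f := fun i => v (x i)) (Set.finite_range _).bddAbove i

theorem exists_eq_nrm (v : AbsoluteValue K ℝ) (x : Fin 3 → K) : ∃ i, v (x i) = nrm v x :=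
  exists_eq_ciSup_of_finite

theorem nrm_le {v : AbsoluteValue K ℝ} {x : Fin 3 → K} {r : ℝ} (h : ∀ i, v (x i) ≤ r) :
    nrm v x ≤ r :=
  ciSup_le h

theorem nrm_pos (v : AbsoluteValue K ℝ) {x : Fin 3 → K} (hx : x ≠ 0) : 0 < nrm v x := by
  obtain ⟨i, hi⟩ := Function.ne_iff.mp hx
  exact lt_of_lt_of_le (v.pos hi) (le_nrm v x i)

theorem nrm_smul (v : AbsoluteValue K ℝ) (c : K) (x : Fin 3 → K) :
    nrm v (c • x) = v c * nrm v x := by
  unfold nrm
  rw [Real.mul_iSup_of_nonneg (v.nonneg c)]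
  congr 1
  ext i
  simp

theorem minor_le (v : AbsoluteValue K ℝ) (y z : Fin 3 → K) (a b : Fin 3) :
    v (y a * z b - y b * z a) ≤ nrm v (crossProduct y z) := by
  have h0 := le_nrm v (crossProduct y z) 0
  have h1 := le_nrm v (crossProduct y z) 1
  have h2 := le_nrm v (crossProduct y z) 2
  have hn := nrm_nonneg v (crossProduct y z)
  rw [cross_apply] at h0 h1 h2 hn ⊢
  simp only [Matrix.cons_val_zero, Matrix.cons_val_one, Matrix.cons_val_two, Matrix.head_cons,
    Matrix.tail_cons] at h0 h1 h2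
  have e0 := h0
  have e1 := h1
  have e2 := h2
  rw [← v.map_neg] at e0 e1 e2
  fin_cases a <;> fin_cases b <;> simp only [Fin.zero_eta, Fin.mk_one, Fin.reduceFinMk]
  · rw [sub_self, v.map_zero]; exact hn
  · exact h2
  · rw [show y 0 * z 2 - y 2 * z 0 = -(y 2 * z 0 - y 0 * z 2) by ring]; exact e1
  · rw [show y 1 * z 0 - y 0 * z 1 = -(y 0 * z 1 - y 1 * z 0) by ring]; exact e2
  · rw [sub_self, v.map_zero]; exact hn
  · exact h0
  · exact h1
  · rw [show y 2 * z 1 - y 1 * z 2 = -(y 1 * z 2 - y 2 * z 1) by ring]; exact e0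
  · rw [sub_self, v.map_zero]; exact hn

theorem exists_minor (x y : Fin 3 → K) (m : Fin 3) :
    ∃ a b : Fin 3, crossProduct x y m = x a * y b - x b * y a := by
  rw [cross_apply]
  fin_cases m
  · exact ⟨1, 2, by simp⟩
  · exact ⟨2, 0, by simp⟩
  · exact ⟨0, 1, by simp⟩

theorem nrm_cross_le (v : AbsoluteValue K ℝ) (x y : Fin 3 → K) :
    nrm v (crossProduct x y) ≤ 2 * (nrm v x * nrm v y) := by
  apply nrm_le
  intro m
  obtain ⟨a, b, hab⟩ := exists_minor x y m
  rw [hab]
  have hm : ∀ i j, v (x i) * v (y j) ≤ nrm v x * nrm v y := fun i j =>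
    mul_le_mul (le_nrm v x i) (le_nrm v y j) (v.nonneg _) (nrm_nonneg v x)
  have h0 : v (x a * y b - x b * y a) ≤ v (x a * y b) + v (x b * y a) := by
    have h1 := v.add_le (x a * y b) (-(x b * y a))
    rwa [v.map_neg, ← sub_eq_add_neg] at h1
  calc v (x a * y b - x b * y a) ≤ v (x a * y b) + v (x b * y a) := h0
    _ = v (x a) * v (y b) + v (x b) * v (y a) := by rw [v.map_mul, v.map_mul]
    _ ≤ 2 * (nrm v x * nrm v y) := by linarith [hm a b, hm b a]

theorem nrm_cross_le_na {v : AbsoluteValue K ℝ} (hv : IsNonarchimedean v) (x y : Fin 3 → K) :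
    nrm v (crossProduct x y) ≤ nrm v x * nrm v y := by
  apply nrm_le
  intro m
  obtain ⟨a, b, hab⟩ := exists_minor x y m
  rw [hab]
  have hm : ∀ i j, v (x i) * v (y j) ≤ nrm v x * nrm v y := fun i j =>
    mul_le_mul (le_nrm v x i) (le_nrm v y j) (v.nonneg _) (nrm_nonneg v x)
  have h1 := hv (x a * y b) (-(x b * y a))
  rw [← sub_eq_add_neg, v.map_neg, v.map_mul, v.map_mul] at h1
  exact h1.trans (max_le (hm a b) (hm b a))

/-- The ultrametric inequality for contacts, for all absolute values. -/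
theorem cross_ultra (v : AbsoluteValue K ℝ) (x y z : Fin 3 → K) :
    nrm v (crossProduct x y) * nrm v z ≤
      9 * (nrm v x * nrm v (crossProduct y z) + nrm v y * nrm v (crossProduct x z)) := by
  obtain ⟨m, hm⟩ := exists_eq_nrm v (crossProduct x y)
  obtain ⟨j, hj⟩ := exists_eq_nrm v z
  obtain ⟨a, b, hab⟩ := exists_minor x y m
  rw [← hm, ← hj, hab, ← v.map_mul]
  have key : (x a * y b - x b * y a) * z j =
      x a * (y b * z j - y j * z b) + -(x b * (y a * z j - y j * z a)) +
        y j * (x a * z b - x b * z a) := by ring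
  have hA : v (x a * (y b * z j - y j * z b)) ≤ nrm v x * nrm v (crossProduct y z) := by
    rw [v.map_mul]
    exact mul_le_mul (le_nrm v x a) (minor_le v y z b j) (v.nonneg _) (nrm_nonneg v x)
  have hB : v (-(x b * (y a * z j - y j * z a))) ≤ nrm v x * nrm v (crossProduct y z) := by
    rw [v.map_neg, v.map_mul]
    exact mul_le_mul (le_nrm v x b) (minor_le v y z a j) (v.nonneg _) (nrm_nonneg v x)
  have hC : v (y j * (x a * z b - x b * z a)) ≤ nrm v y * nrm v (crossProduct x z) := by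
    rw [v.map_mul]
    exact mul_le_mul (le_nrm v y j) (minor_le v x z a b) (v.nonneg _) (nrm_nonneg v y)
  have hD : 0 ≤ nrm v x * nrm v (crossProduct y z) := mul_nonneg (nrm_nonneg v _) (nrm_nonneg v _)
  have hE : 0 ≤ nrm v y * nrm v (crossProduct x z) := mul_nonneg (nrm_nonneg v _) (nrm_nonneg v _)
  rw [key]
  calc v (x a * (y b * z j - y j * z b) + -(x b * (y a * z j - y j * z a)) +
        y j * (x a * z b - x b * z a))
      ≤ v (x a * (y b * z j - y j * z b) + -(x b * (y a * z j - y j * z a))) +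
        v (y j * (x a * z b - x b * z a)) := v.add_le _ _
    _ ≤ v (x a * (y b * z j - y j * z b)) + v (-(x b * (y a * z j - y j * z a))) +
        v (y j * (x a * z b - x b * z a)) := by gcongr; exact v.add_le _ _
    _ ≤ 9 * (nrm v x * nrm v (crossProduct y z) + nrm v y * nrm v (crossProduct x z)) := by
        linarith

end Pool.Agent.Helper72.PC
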