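import Pool.Agent.Helper72.PC.Defs
import Pool.Agent.Helper58.PC.Post

/-!
# The equation of the post-critical curve
-/

set_option autoImplicit false

namespace Pool.Agent.Helper72.PC

open MvPolynomial
open Pool.Agent.Helper36 (step iter)
open Pool.Agent.Helper30.TP

/-- If the forward orbit of the critical curve is contained in an algebraic curve, there is
a squarefree form `g` which divides `g ∘ F` and is divisible by all irreducible factors of the
Jacobian determinant. -/
theorem exists_post {k : Type} [Field k] [IsAlgClosed k] [CharZero k] {d : ℕ}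
    {F : Fin 3 → MvPolynomial (Fin 3) k} (hF : IsEndo d F) {G : MvPolynomial (Fin 3) k} {m : ℕ}
    (hG : G.IsHomogeneous m) (hG0 : G ≠ 0)
    (h : ∀ x : Fin 3 → k, eval x (jf F) = 0 → ∀ n, eval (iter F x n) G = 0) :
    ∃ (g : MvPolynomial (Fin 3) k) (D : ℕ), g.IsHomogeneous D ∧ Squarefree g ∧
      g ∣ aeval F g ∧ ∀ P, Irreducible P → P ∣ jf F → P ∣ g := by
  obtain ⟨g, D, hgh, hsq, -, hgF, hP⟩ := Pool.Agent.Helper58.PC.exists_post_gen
    (by have := hF.two_le; omega) hF.hom (fun x hx => hF.nz x fun i => hx i) hG hG0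
    (fun x hx n => h x hx n)
  exact ⟨g, D, hgh, hsq, hgF, hP⟩

end Pool.Agent.Helper72.PC
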