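import Pool.Agent.Helper72.PC.Base
import Pool.Agent.Helper58.PC.Desc
import Pool.Agent.Helper30.TP.Final

/-!
# Post-critically finite endomorphisms of the plane with algebraic coefficients
-/

set_option autoImplicit false

namespace Pool.Agent.Helper72.PC

open MvPolynomial
open Pool.Agent.Helper36 (step iter)
open Pool.Agent.Helper30.TP

theorem qbar {d : ℕ} {f : Fin 3 → MvPolynomial (Fin 3) ℂ} (hf : IsEndo d f)
    (halg : ∀ i m, IsAlgebraic ℚ ((f i).coeff m)) {G : MvPolynomial (Fin 3) ℂ} {m : ℕ}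
    (hG : G.IsHomogeneous m) (hG0 : G ≠ 0)
    (h : ∀ x : Fin 3 → ℂ, eval x (jf f) = 0 → ∀ n, eval (iter f x n) G = 0)
    {a : Fin 3 → ℂ} (ha : a ≠ 0) : Pool.Agent.Helper38.Sym.DMLgen f a := by
  classical
  let k : IntermediateField ℚ ℂ := algebraicClosure ℚ ℂ
  have hac : IsAlgClosed k := (algebraicClosure.isAlgClosure ℚ ℂ).isAlgClosed
  have halk : Algebra.IsAlgebraic ℚ k := (algebraicClosure.isAlgClosure ℚ ℂ).isAlgebraic
  have hlift : ∀ i, ∃ g : MvPolynomial (Fin 3) k, map (algebraMap k ℂ) g = f i := by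
    intro i
    have h1 : f i ∈ Set.range (map (σ := Fin 3) (algebraMap k ℂ)) := by
      rw [mem_range_map_iff_coeffs_subset]
      intro c hc
      obtain ⟨m, hm⟩ := mem_coeffs_iff.1 hc
      refine ⟨⟨c, ?_⟩, rfl⟩
      rw [hm.2]
      exact mem_algebraicClosure_iff.2 (halg i m)
    exact h1
  choose F hF using hlift
  have hFf : (fun i => map (algebraMap k ℂ) (F i)) = f := funext hF
  have hFe : IsEndo d fun i => map (algebraMap k ℂ) (F i) := by rw [hFf]; exact hf
  by_cases hc : IsConst k a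
  · obtain ⟨z, s, hs, hz⟩ := hc
    obtain ⟨g, q, c, D, e, t, E, hdata⟩ := Pool.Agent.Helper58.PC.exists_pcfdata hFe hG hG0 (by
      rw [hFf]
      exact h)
    have hz0 : z ≠ 0 := by
      intro h0
      apply ha
      rw [hz, h0]
      funext i
      simp
    have := base hFe hdata hz0 s hs
    rw [hFf, ← hz] at this
    exact this
  · have := Pool.Agent.Helper30.TP.final (Pool.Agent.Helper58.PC.desc_isEndo hFe) ha hc
    rwa [hFf] at this

end Pool.Agent.Helper72.PC
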